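import Pool.Agent.Helper59_TP3.PrimeQ

/-!
# MP_ce3ba7_al in characteristic 3: statements of the modules (helper57)

Table `tp` (helper19), notes of MP_ce3ba7_al. The final statement is `Char3Stmt` (Helper19_TP/Top).
-/

set_option autoImplicit false

namespace Pool.Agent.C3

open Pool.Agent.TP
open scoped TensorProduct

/-! ### commutative alternative rings of characteristic 3 -/

section comm

variable (B : Type) [NonUnitalNonAssocCommRing B]

/-- commutative alternative ring of characteristic 3 -/
structure CA : Prop where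
  three : ∀ x : B, x + x + x = 0
  alt : ∀ x y : B, (x * x) * y = x * (x * y)

variable {B}

/-- alternating multiderivation -/
structure AD {ι : Type} [DecidableEq ι] (ψ : (ι → B) → B) : Prop where
  add : ∀ z i a b, ψ (Function.update z i (a + b)) =
    ψ (Function.update z i a) + ψ (Function.update z i b)
  leib : ∀ z i a b, ψ (Function.update z i (a * b)) =
    a * ψ (Function.update z i b) + b * ψ (Function.update z i a)
  alt : ∀ z i j, i ≠ j → z i = z j → ψ z = 0

variable (B)

/-- a class of functions containing constants and projections, closed under sums, differences,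
products and substitution -/
structure Clone (Q : ∀ ι : Type, ((ι → B) → B) → Prop) : Prop where
  proj : ∀ (ι : Type) (i : ι), Q ι fun z => z i
  const : ∀ (ι : Type) (b : B), Q ι fun _ => b
  add : ∀ (ι : Type) (f g : (ι → B) → B), Q ι f → Q ι g → Q ι fun z => f z + g z
  sub : ∀ (ι : Type) (f g : (ι → B) → B), Q ι f → Q ι g → Q ι fun z => f z - g z
  mul : ∀ (ι : Type) (f g : (ι → B) → B), Q ι f → Q ι g → Q ι fun z => f z * g z
  comp : ∀ (ι κ : Type) (f : (ι → B) → B) (g : ι → (κ → B) → B), Q ι f → (∀ i, Q κ (g i)) →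
    Q κ fun z => f fun i => g i z

/-- all alternating multiderivations of arity `n` in the class vanish -/
def Van (Q : ∀ ι : Type, ((ι → B) → B) → Prop) (n : ℕ) : Prop :=
  ∀ (ι : Type) [Fintype ι] [DecidableEq ι], Fintype.card ι = n →
    ∀ ψ : (ι → B) → B, Q ι ψ → AD ψ → ∀ z, ψ z = 0

/-- polynomial functions with constants -/
inductive PolyF (ι : Type) : ((ι → B) → B) → Prop
  | proj (i : ι) : PolyF ι fun z => z i
  | const (b : B) : PolyF ι fun _ => b
  | add (f g : (ι → B) → B) : PolyF ι f → PolyF ι g → PolyF ι fun z => f z + g z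
  | sub (f g : (ι → B) → B) : PolyF ι f → PolyF ι g → PolyF ι fun z => f z - g z
  | mul (f g : (ι → B) → B) : PolyF ι f → PolyF ι g → PolyF ι fun z => f z * g z

end comm

/-- MODULE CC: the descent. -/
def CCStmt : Prop :=
  ∀ (B : Type) [NonUnitalNonAssocCommRing B] (Q : ∀ ι : Type, ((ι → B) → B) → Prop),
    CA B → Clone B Q →
    (∀ g : B, (∀ y z, asc g y z = 0) → g = 0) →
    (∀ g : B, (∀ x y z, g * asc x y z = 0) → (∀ a x y z, g * (a * asc x y z) = 0) → g = 0) →
    (∃ n, ∀ m, n ≤ m → Van B Q m) → ∀ x y z : B, asc x y z = 0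

/-- MODULE LN: finitely generated commutative alternative rings of characteristic 3 with
`x^3 = 0` are nilpotent. -/
def LNStmt : Prop :=
  ∀ M : ℕ, ∃ N : ℕ, ∀ (B : Type) [NonUnitalNonAssocCommRing B], CA B →
    (∀ x : B, x * (x * x) = 0) → ∀ (a : Fin M → B) (w : FreeMagma (Fin M)), N ≤ w.length →
      FreeMagma.lift a w = 0

/-! ### multilinear identities -/

/-- the multiset of letters of a monomial -/
def lv : FreeMagma ℕ → Multiset ℕ
  | .of i => {i}
  | .mul a b => lv a + lv b

section alg

variable (F : Type) [Field F]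
variable (B : Type) [NonUnitalNonAssocRing B] [Module F B] [IsScalarTower F B B]
  [SMulCommClass F B B]

/-- `B` satisfies a multilinear identity with coefficient sum 1 -/
def HasML : Prop :=
  ∃ (n : ℕ) (f : MonoidAlgebra F (FreeMagma ℕ)),
    (∀ w ∈ f.coeff.support, lv w = Multiset.range n) ∧ (f.coeff.sum fun _ c => c) = 1 ∧
      ∀ φ : ℕ → B, MonoidAlgebra.liftMagma F (FreeMagma.lift φ) f = 0

/-- finitely generated subalgebras of all scalar extensions of `B` are nilpotent, of index
depending only on the number of generators -/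
def LNh : Prop :=
  ∀ m : ℕ, ∃ N : ℕ, ∀ (R : Type) [CommRing R] [Algebra F R] (b : Fin m → B ⊗[F] R)
    (w : FreeMagma (Fin m)), N ≤ w.length → FreeMagma.lift b w = 0

end alg

/-- MODULE BASE: in a commutative maximal algebra of characteristic 3 with a multilinear identity
all polynomial alternating multiderivations of large arity vanish. -/
def BaseStmt : Prop :=
  ∀ (F : Type) [Field F] (S : Set (MonoidAlgebra F (FreeMagma ℕ)))
    (B : Type) [NonUnitalNonAssocCommRing B] [Module F B] [IsScalarTower F B B]
    [SMulCommClass F B B] (x : ℕ → B), CA B → MaxAlg F S B x → HasML F B →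
      ∃ n, ∀ m, n ≤ m → Van B (PolyF B) m

/-- MODULE FF (any characteristic): homogeneity. -/
def FFStmt : Prop :=
  ∀ (F : Type) [Field F] (S : Set (MonoidAlgebra F (FreeMagma ℕ))), AssNil F S →
    ∀ (B : Type) [NonUnitalNonAssocRing B] [Module F B] [IsScalarTower F B B]
    [SMulCommClass F B B] (x : ℕ → B), MaxAlg F S B x → LNh F B → HasML F B

/-- commutativity as an identity -/
noncomputable def comId (F : Type) [Field F] : MonoidAlgebra F (FreeMagma ℕ) :=
  H67.mo F (FreeMagma.of 0 * FreeMagma.of 1) - H67.mo F (FreeMagma.of 1 * FreeMagma.of 0)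

/-- MODULE COMM3: the commutative theorem. -/
def Comm3Stmt : Prop :=
  ∀ (F : Type) [Field F], (3 : F) = 0 → ∀ S : Set (MonoidAlgebra F (FreeMagma ℕ)), AssNil F S →
    AllSolv F (insert (comId F) S)

/-- commutator -/
def cm {B : Type} [NonUnitalNonAssocRing B] (x y : B) : B := x * y - y * x

/-- MODULE CLOS (f-free closure, helper66's path with rules N, NX, Z, A). -/
def ClosStmt : Prop :=
  ∀ (F : Type) [Field F], (3 : F) = 0 → ∀ S : Set (MonoidAlgebra F (FreeMagma ℕ)), AssNil F S →
    ∀ (B : Type) [NonUnitalNonAssocRing B] [Module F B] [IsScalarTower F B B]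
    [SMulCommClass F B B] (x : ℕ → B), MaxAlg F S B x → ∀ a b : B, cm a (cm a b) = 0

/-- MODULE NCLN: local nilpotency in the noncommutative case. -/
def NclnStmt : Prop :=
  ∀ (F : Type) [Field F], (3 : F) = 0 →
    ∀ (B : Type) [NonUnitalNonAssocRing B] [Module F B] [IsScalarTower F B B]
    [SMulCommClass F B B], IsAlt B → (∀ a b : B, cm a (cm a b) = 0) →
      (∀ a : B, (a * a) * a = 0) → LNh F B

/-- MODULE RC (helper99): the noncommutative part with a multilinear identity. -/
def RCStmt : Prop :=
  ∀ (F : Type) [Field F], (3 : F) = 0 → ∀ S : Set (MonoidAlgebra F (FreeMagma ℕ)), AssNil F S →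
    ∀ (B : Type) [NonUnitalNonAssocRing B] [Module F B] [IsScalarTower F B B]
    [SMulCommClass F B B] (x : ℕ → B), MaxAlg F S B x → HasML F B →
      (∀ a b : B, cm a (cm a b) = 0) → ∀ a b : B, a * b = b * a

end Pool.Agent.C3
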