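import Pool.Agent.Helper57_C3.Cert

/-!
# The descent for alternating multiderivations (helper57), module CC
-/

set_option autoImplicit false

namespace Pool.Agent.C3

open Pool.Agent.TP Function

/-! ### alternating multiderivations -/

section ad

variable {B : Type} [NonUnitalNonAssocCommRing B] {ι : Type} [DecidableEq ι]

/-- antisymmetry under the exchange of two arguments -/
def Anti (ψ : (ι → B) → B) (i j : ι) : Prop :=
  ∀ z : ι → B, ψ (fun l => z (Equiv.swap i j l)) = - ψ z

theorem Anti.symm {ψ : (ι → B) → B} {i j : ι} (h : Anti ψ i j) : Anti ψ j i := by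
  intro z
  rw [Equiv.swap_comm]
  exact h z

theorem Anti.trans {ψ : (ι → B) → B} {i j l : ι} (h1 : Anti ψ i j) (h2 : Anti ψ j l)
    (hij : i ≠ j) (hil : i ≠ l) (hjl : j ≠ l) : Anti ψ i l := by
  intro z
  have e1 := h1 z
  have e2 := h2 fun m => z (Equiv.swap i j m)
  have e3 := h1 fun m => z (Equiv.swap i j (Equiv.swap j l m))
  have e4 : (fun m => z (Equiv.swap i l m)) =
      fun m => z (Equiv.swap i j (Equiv.swap j l (Equiv.swap i j m))) := by
    funext m
    congr 1
    by_cases g1 : m = i
    · subst g1
      rw [Equiv.swap_apply_left, Equiv.swap_apply_left, Equiv.swap_apply_left,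
        Equiv.swap_apply_of_ne_of_ne hil.symm hjl.symm]
    · by_cases g2 : m = l
      · subst g2
        rw [Equiv.swap_apply_right, Equiv.swap_apply_of_ne_of_ne hil.symm hjl.symm,
          Equiv.swap_apply_right, Equiv.swap_apply_right]
      · by_cases g3 : m = j
        · subst g3
          rw [Equiv.swap_apply_of_ne_of_ne g1 g2, Equiv.swap_apply_right,
            Equiv.swap_apply_of_ne_of_ne hij hil, Equiv.swap_apply_left]
        · rw [Equiv.swap_apply_of_ne_of_ne g1 g2, Equiv.swap_apply_of_ne_of_ne g1 g3,
            Equiv.swap_apply_of_ne_of_ne g3 g2, Equiv.swap_apply_of_ne_of_ne g1 g3]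
  rw [e4, e3, e2, e1, neg_neg]

theorem Anti.update {ψ : (ι → B) → B} {i j : ι} (h : Anti ψ i j) (hij : i ≠ j) (z : ι → B)
    (a b : B) : ψ (update (update z i a) j b) = - ψ (update (update z i b) j a) := by
  have e := h (Function.update (Function.update z i b) j a)
  rw [← e]
  congr 1
  funext l
  by_cases h1 : l = j
  · subst h1
    rw [update_self, Equiv.swap_apply_right, update_of_ne hij, update_self]
  · rw [update_of_ne h1]
    by_cases h2 : l = i
    · subst h2
      rw [update_self, Equiv.swap_apply_left, update_self]
    · rw [update_of_ne h2, Equiv.swap_apply_of_ne_of_ne h2 h1, update_of_ne h1, update_of_ne h2]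

theorem swap_update (i j : ι) (z : ι → B) (a : B) :
    (fun l => update z j a (Equiv.swap i j l)) = update (fun l => z (Equiv.swap i j l)) i a := by
  funext l
  by_cases h1 : l = i
  · subst h1
    rw [Equiv.swap_apply_left, update_self, update_self]
  · rw [update_of_ne h1, update_of_ne]
    intro h2
    apply h1
    have := congrArg (Equiv.swap i j) h2
    rwa [Equiv.swap_apply_self, Equiv.swap_apply_right] at this

/-- construction of alternating multiderivations -/
theorem AD.mk' (h : CA B) {ψ : (ι → B) → B} (i0 : ι) (ha : ∀ i j, i ≠ j → Anti ψ i j)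
    (hadd : ∀ z a b, ψ (update z i0 (a + b)) = ψ (update z i0 a) + ψ (update z i0 b))
    (hleib : ∀ z a b, ψ (update z i0 (a * b)) =
      a * ψ (update z i0 b) + b * ψ (update z i0 a)) : AD ψ where
  add z i a b := by
    by_cases hi : i = i0
    · subst hi; exact hadd z a b
    · have e : ∀ c, ψ (update z i c) = - ψ (update (fun l => z (Equiv.swap i0 i l)) i0 c) := by
        intro c
        have := ha i0 i (Ne.symm hi) (update z i c)
        rw [swap_update] at this
        rw [this, neg_neg]
      rw [e, e, e, hadd]
      abel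
  leib z i a b := by
    by_cases hi : i = i0
    · subst hi; exact hleib z a b
    · have e : ∀ c, ψ (update z i c) = - ψ (update (fun l => z (Equiv.swap i0 i l)) i0 c) := by
        intro c
        have := ha i0 i (Ne.symm hi) (update z i c)
        rw [swap_update] at this
        rw [this, neg_neg]
      rw [e, e, e, hleib, mul_neg, mul_neg]
      abel
  alt z i j hij hz := by
    have e := ha i j hij z
    have e2 : (fun l => z (Equiv.swap i j l)) = z := by
      funext l
      by_cases h1 : l = i
      · subst h1; rw [Equiv.swap_apply_left, hz]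
      · by_cases h2 : l = j
        · subst h2; rw [Equiv.swap_apply_right, hz]
        · rw [Equiv.swap_apply_of_ne_of_ne h1 h2]
    rw [e2] at e
    exact h.two (by nth_rw 1 [e]; exact neg_add_cancel _)

theorem AD.zero {ψ : (ι → B) → B} (hψ : AD ψ) (z : ι → B) (i : ι) : ψ (update z i 0) = 0 := by
  have := hψ.add z i 0 0
  rw [add_zero] at this
  exact left_eq_add.mp this

theorem AD.skew {ψ : (ι → B) → B} (hψ : AD ψ) {i j : ι} (hij : i ≠ j) (z : ι → B) (a b : B) :
    ψ (update (update z i a) j b) = - ψ (update (update z i b) j a) := by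
  have h1 := hψ.alt (update (update z i (a + b)) j (a + b)) i j hij (by
    rw [update_of_ne hij, update_self, update_self])
  have c1 : ∀ a b : B, update (update z i a) j b = update (update z j b) i a := fun a b =>
    update_comm hij a b z
  rw [hψ.add, c1, c1, hψ.add, hψ.add, ← c1, ← c1, ← c1, ← c1,
    hψ.alt (update (update z i a) j a) i j hij (by
      rw [update_of_ne hij, update_self, update_self]),
    hψ.alt (update (update z i b) j b) i j hij (by
      rw [update_of_ne hij, update_self, update_self]), zero_add, add_zero] at h1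
  rw [eq_neg_iff_add_eq_zero, add_comm]
  exact h1

theorem AD.anti {ψ : (ι → B) → B} (hψ : AD ψ) {i j : ι} (hij : i ≠ j) : Anti ψ i j := by
  intro z
  have e := hψ.skew hij z (z j) (z i)
  have e1 : update (update z i (z i)) j (z j) = z := by rw [update_eq_self, update_eq_self]
  rw [e1] at e
  rw [← e]
  congr 1
  funext l
  by_cases h1 : l = j
  · subst h1; rw [Equiv.swap_apply_right, update_self]
  · rw [update_of_ne h1]
    by_cases h2 : l = i
    · subst h2; rw [Equiv.swap_apply_left, update_self]
    · rw [Equiv.swap_apply_of_ne_of_ne h2 h1, update_of_ne h2]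

/-- two slots of an alternating multiderivation -/
theorem AD.bi {ψ : (ι → B) → B} (hψ : AD ψ) {i j : ι} (hij : i ≠ j) (z : ι → B) :
    Bi fun a b => ψ (update (update z i a) j b) where
  addl a b c := by
    have c1 : ∀ a b : B, update (update z i a) j b = update (update z j b) i a := fun a b =>
      update_comm hij a b z
    rw [c1, c1, c1, hψ.add]
  leibl a b c := by
    have c1 : ∀ a b : B, update (update z i a) j b = update (update z j b) i a := fun a b =>
      update_comm hij a b z
    rw [c1, c1, c1, hψ.leib]
  skew a b := hψ.skew hij z a b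

/-- all exchanges, from the star of `some i0` -/
theorem anti_option {ψ : (Option ι → B) → B} (i0 : ι) (h1 : Anti ψ (some i0) none)
    (h2 : ∀ j, j ≠ i0 → Anti ψ (some i0) (some j)) : ∀ i j, i ≠ j → Anti ψ i j := by
  have key : ∀ j, j ≠ some i0 → Anti ψ (some i0) j := by
    intro j hj
    cases j with
    | none => exact h1
    | some j => exact h2 j fun e => hj (by rw [e])
  intro i j hij
  by_cases hi : i = some i0
  · subst hi
    exact key j hij.symm
  · by_cases hj : j = some i0
    · subst hj
      exact (key i hi).symm
    · exact (key i hi).symm.trans (key j hj) hi hij (Ne.symm hj)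

end ad

/-! ### closure properties of the class -/

section clone

variable {B : Type} [NonUnitalNonAssocCommRing B] {Q : ∀ ι : Type, ((ι → B) → B) → Prop}
  (hQ : Clone B Q)
include hQ

theorem Clone.asc' {ι : Type} {f g k : (ι → B) → B} (hf : Q ι f) (hg : Q ι g) (hk : Q ι k) :
    Q ι fun z => asc (f z) (g z) (k z) :=
  hQ.sub _ _ _ (hQ.mul _ _ _ (hQ.mul _ _ _ hf hg) hk) (hQ.mul _ _ _ hf (hQ.mul _ _ _ hg hk))

theorem Clone.kap' {ι : Type} {u x1 x2 x3 x4 x5 : (ι → B) → B} (hu : Q ι u) (h1 : Q ι x1)
    (h2 : Q ι x2) (h3 : Q ι x3) (h4 : Q ι x4) (h5 : Q ι x5) :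
    Q ι fun z => kap (u z) (x1 z) (x2 z) (x3 z) (x4 z) (x5 z) := by
  have tt : ∀ {a b c d e f : (ι → B) → B}, Q ι a → Q ι b → Q ι c → Q ι d → Q ι e → Q ι f →
      Q ι fun z => asc (a z) (b z) (c z) * asc (d z) (e z) (f z) :=
    fun ha hb hc hd he hf => hQ.mul _ _ _ (hQ.asc' ha hb hc) (hQ.asc' hd he hf)
  unfold kap
  exact hQ.add _ _ _ (hQ.sub _ _ _ (hQ.add _ _ _ (hQ.add _ _ _ (hQ.sub _ _ _ (hQ.add _ _ _
    (hQ.sub _ _ _ (hQ.add _ _ _ (hQ.sub _ _ _ (tt hu h1 h2 h3 h4 h5) (tt hu h1 h3 h2 h4 h5))
    (tt hu h1 h4 h2 h3 h5)) (tt hu h1 h5 h2 h3 h4)) (tt hu h2 h3 h1 h4 h5))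
    (tt hu h2 h4 h1 h3 h5)) (tt hu h2 h5 h1 h3 h4)) (tt hu h3 h4 h1 h2 h5))
    (tt hu h3 h5 h1 h2 h4)) (tt hu h4 h5 h1 h2 h3)

theorem Clone.opt {ι : Type} {ψ : (ι → B) → B} (hψ : Q ι ψ) :
    Q (Option ι) fun w => ψ fun i => w (some i) :=
  hQ.comp _ _ ψ (fun i w => w (some i)) hψ fun i => hQ.proj _ _

theorem Clone.upd {ι : Type} [DecidableEq ι] {ψ : (ι → B) → B} (hψ : Q ι ψ) (i0 : ι) (a : B) :
    Q (Option ι) fun w => ψ (update (fun i => w (some i)) i0 a) := by
  refine hQ.comp _ _ ψ (fun i w => update (fun i => w (some i)) i0 a i) hψ fun i => ?_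
  by_cases hi : i = i0
  · subst hi
    simp only [update_self]
    exact hQ.const _ _
  · simp only [update_of_ne hi]
    exact hQ.proj _ _

end clone

/-! ### the step -/

section step

variable {B : Type} [NonUnitalNonAssocCommRing B] {ι : Type} [DecidableEq ι]

theorem swap_none (w : Option ι → B) (i0 : ι) (a : B) :
    update (fun i => w (Equiv.swap (some i0) none (some i))) i0 a =
      update (fun i => w (some i)) i0 a := by
  funext l
  by_cases hl : l = i0
  · subst hl
    rw [update_self, update_self]
  · rw [update_of_ne hl, update_of_ne hl, Equiv.swap_apply_of_ne_of_ne]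
    · exact fun e => hl (Option.some.inj e)
    · exact fun e => Option.some_ne_none _ e

theorem swap_some (w : Option ι → B) {i0 j : ι} (hj : j ≠ i0) (a : B) :
    update (fun i => w (Equiv.swap (some i0) (some j) (some i))) i0 a =
      update (update (fun i => w (some i)) i0 a) j (w (some i0)) := by
  funext l
  by_cases hl : l = i0
  · subst hl
    rw [update_self, update_of_ne hj.symm, update_self]
  · rw [update_of_ne hl]
    by_cases hl2 : l = j
    · subst hl2
      rw [Equiv.swap_apply_right, update_self]
    · rw [update_of_ne hl2, update_of_ne hl, Equiv.swap_apply_of_ne_of_ne]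
      · exact fun e => hl (Option.some.inj e)
      · exact fun e => hl2 (Option.some.inj e)

theorem upd_some (w : Option ι → B) {i0 j : ι} (hj : j ≠ i0) (a : B) :
    update (fun i => w (some i)) i0 a =
      update (update (fun i => w (some i)) i0 a) j (w (some j)) := by
  funext l
  by_cases hl2 : l = j
  · subst hl2
    rw [update_self, update_of_ne hj]
  · rw [update_of_ne hl2]

theorem upd_none (w : Option ι → B) (a : B) (i : ι) : update w none a (some i) = w (some i) :=
  update_of_ne (Option.some_ne_none _) _ _

variable (h : CA B) {ψ : (ι → B) → B} (hψ : AD ψ) (i0 : ι)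
include h

/-- defect lemma -/
theorem defect (u c T x y : B) : asc x (asc y u c) T + asc y (asc x u c) T =
    asc u x (asc y c T) + asc u y (asc x c T) := by
  have e := Bi.c1 h (Bi.ofAsc h c) x T y u
  rw [h.s23 x T, h.s23 y T, h.s12 x u (asc y T c), h.s12 y u (asc x T c), h.s23 y T c,
    h.s23 x T c, asc_neg3, asc_neg3, neg_neg, neg_neg] at e
  linear_combination (norm := abel) - e

/-- the biderivation `asc x a (α a y)` -/
theorem Bi.half {α : B → B → B} (hα : Bi α) (a : B) : Bi fun x y => asc x a (α a y) where
  addl x y z := asc_add1 _ _ _ _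
  leibl x y z := h.m1 _ _ _ _
  skew x y := by
    have e := (Bi.prime h hα a a).skew x y
    have e2 : (asc x a (α a y) + asc y a (α a x)) + (asc x a (α a y) + asc y a (α a x)) = 0 := by
      linear_combination (norm := abel) e
    exact eq_neg_of_add_eq_zero_left (h.two e2)

include hψ

theorem stepR_ad {i1 : ι} (hi : i0 ≠ i1) (a c : B) : AD fun w : Option ι → B =>
    asc (w none) (w (some i0)) c * asc c a (ψ (update (fun i => w (some i)) i0 a)) -
    asc (w none) (w (some i0)) a * asc a c (ψ (update (fun i => w (some i)) i0 c)) := by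
  have key : ∀ (a c : B) (w : Option ι → B) (j : ι), j ≠ i0 →
      asc (w none) (w (some j)) c * asc c a (ψ (update (update (fun i => w (some i)) i0 a) j
        (w (some i0)))) +
      asc (w none) (w (some i0)) c * asc c a (ψ (update (fun i => w (some i)) i0 a)) = 0 := by
    intro a c w j hj
    rw [upd_some w hj a, update_idem]
    have hb := hψ.bi hj.symm fun i => w (some i)
    have e := Bi.c2 h (Bi.half h hb a) c (w none) (w (some i0)) c (w (some j))
    beta_reduce at e
    rw [h.e13, h.e13, zero_mul, zero_mul, add_zero, add_zero] at e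
    rw [add_comm]
    exact e
  refine AD.mk' h none (anti_option (i0 := i0) ?_ ?_) ?_ ?_
  · intro w
    beta_reduce
    rw [swap_none, swap_none, Equiv.swap_apply_left, Equiv.swap_apply_right,
      h.s12 (w (some i0)), h.s12 (w (some i0)) (w none) a, neg_mul, neg_mul]
    abel
  · intro j hj w
    beta_reduce
    rw [swap_some w hj, swap_some w hj, Equiv.swap_apply_left,
      Equiv.swap_apply_of_ne_of_ne (Option.some_ne_none _).symm (Option.some_ne_none _).symm]
    linear_combination (norm := abel) key a c w j hj - key c a w j hj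
  · intro z x y
    simp only [upd_none, update_self, asc_add1, add_mul]
    abel
  · intro z x y
    simp only [upd_none, update_self]
    have hb := hψ.bi hi fun i => z (some i)
    have e2 := fun y : B => id2 h hb a c y (z (some i1))
    beta_reduce at e2
    rw [← upd_some z hi.symm a, ← upd_some z hi.symm c] at e2
    generalize z (some i0) = u
    generalize asc c a (ψ (update (fun i => z (some i)) i0 a)) = T at e2 ⊢
    generalize asc a c (ψ (update (fun i => z (some i)) i0 c)) = T' at e2 ⊢
    have d1 := defect h u c T x y
    have d2 := defect h u a T' x y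
    rw [e2, e2, ← d2] at d1
    simp only [h.m1, add_mul, mul_sub, CA.assoc']
    linear_combination (norm := abel) d1

theorem stepD_ad (p q c d : B) : AD fun w : Option ι → B =>
    kap (ψ (update (fun i => w (some i)) i0 p)) q (w (some i0)) (w none) c d +
    kap (ψ (update (fun i => w (some i)) i0 q)) p (w (some i0)) (w none) c d := by
  refine AD.mk' h none (anti_option (i0 := i0) ?_ ?_) ?_ ?_
  · intro w
    beta_reduce
    rw [swap_none, swap_none, Equiv.swap_apply_left, Equiv.swap_apply_right,
      kap_23 h _ _ (w none), kap_23 h _ _ (w none)]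
    abel
  · intro j hj w
    beta_reduce
    rw [swap_some w hj, swap_some w hj, Equiv.swap_apply_left,
      Equiv.swap_apply_of_ne_of_ne (Option.some_ne_none _).symm (Option.some_ne_none _).symm]
    have hb := hψ.bi hj.symm fun i => w (some i)
    have e := fun i p => kap6 h hb i p (w none) c d
    beta_reduce at e
    rw [upd_some w hj p, upd_some w hj q, update_idem, update_idem]
    generalize w (some i0) = P at e ⊢
    generalize w (some j) = Q' at e ⊢
    generalize w none = u at e ⊢
    obtain ⟨α, hα⟩ : ∃ α : B → B → B, α = fun a b =>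
      ψ (update (update (fun i => w (some i)) i0 a) j b) := ⟨_, rfl⟩
    have hb' : Bi α := hα ▸ hb
    have e' : ∀ i p, kap (α i p) i p u c d = 0 := by rw [hα]; exact e
    have g : ∀ a b, ψ (update (update (fun i => w (some i)) i0 a) j b) = α a b := by
      intro a b; rw [hα]
    rw [g, g, g, g]
    have k1 : ∀ x x' a b c d e : B, kap a (x + x') b c d e = kap a x b c d e +
        kap a x' b c d e := by
      intro x x' a b c d e
      rw [kap_u h, kap_add, kap_u h a, kap_u h a]; abel
    have k2 : ∀ x x' a b c d e : B, kap a b (x + x') c d e = kap a b x c d e +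
        kap a b x' c d e := by
      intro x x' a b c d e
      rw [kap_12 h, k1, kap_12 h a b, kap_12 h a b]; abel
    have e1 := e' (p + q) (P + Q')
    have e2 := e' p P
    have e3 := e' p Q'
    have e4 := e' q P
    have e5 := e' q Q'
    have e6 := e' p (P + Q')
    have e7 := e' q (P + Q')
    have e8 := e' (p + q) P
    have e9 := e' (p + q) Q'
    simp only [hb'.addl, hb'.addr, kap_add, k1, k2] at e1 e2 e3 e4 e5 e6 e7 e8 e9
    linear_combination (norm := abel) e1 - e6 - e7 - e8 - e9 + e2 + e3 + e4 + e5
  · intro z x y
    simp only [upd_none, update_self]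
    have k3 : ∀ x x' a b c d e : B, kap a b c (x + x') d e = kap a b c x d e +
        kap a b c x' d e := by
      intro x x' a b c d e
      rw [kap_23 h, kap_12 h, kap_u h, kap_add, kap_23 h a b c x, kap_12 h a b x,
        kap_u h a x, kap_23 h a b c x', kap_12 h a b x', kap_u h a x']; abel
    rw [k3, k3]; abel
  · intro z x y
    simp only [upd_none, update_self]
    have k3 : ∀ x x' a b c d e : B, kap a b c (x * x') d e = x * kap a b c x' d e +
        x' * kap a b c x d e := by
      intro x x' a b c d e
      rw [kap_23 h, kap_12 h, kap_u h, kap_mul h, kap_23 h a b c x, kap_12 h a b x,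
        kap_u h a x, kap_23 h a b c x', kap_12 h a b x', kap_u h a x']
      simp only [neg_neg, mul_neg]; abel
    rw [k3, k3]; simp only [mul_add]; abel

omit hψ in
theorem polyR {α : B → B → B} (hb : Bi α)
    (hR : ∀ u p a c q : B, asc u p c * asc c a (α a q) - asc u p a * asc a c (α c q) = 0)
    (z1 z2 z3 c c' a a' : B) : rr α z1 z2 z3 c c' a a' = 0 := by
  have e := fun a c => hR z1 z2 a c z3
  have e1 := e (a + a') (c + c')
  have e2 := e a (c + c')
  have e3 := e a' (c + c')
  have e4 := e (a + a') c
  have e5 := e (a + a') c'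
  have e6 := e a c
  have e7 := e a c'
  have e8 := e a' c
  have e9 := e a' c'
  simp only [hb.addl, asc_add1, asc_add2, asc_add3, mul_add, add_mul] at e1 e2 e3 e4 e5 e6 e7 e8 e9
  unfold rr
  linear_combination (norm := abel) e1 - e2 - e3 - e4 - e5 + e6 + e7 + e8 + e9

theorem stepG_ad (hD : ∀ (z : ι → B) (p q x y c d : B), kap (ψ (update z i0 p)) q x y c d +
    kap (ψ (update z i0 q)) p x y c d = 0) (e c d f : B) : AD fun w : Option ι → B =>
    kap (ψ fun i => w (some i)) (w none) e c d f := by
  refine AD.mk' h none (anti_option (i0 := i0) ?_ ?_) ?_ ?_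
  · intro w
    beta_reduce
    have e1 : (fun i => w (Equiv.swap (some i0) none (some i))) =
        update (fun i => w (some i)) i0 (w none) := by
      funext l
      by_cases hl : l = i0
      · subst hl
        rw [update_self, Equiv.swap_apply_left]
      · rw [update_of_ne hl, Equiv.swap_apply_of_ne_of_ne]
        · exact fun e => hl (Option.some.inj e)
        · exact fun e => Option.some_ne_none _ e
    rw [e1, Equiv.swap_apply_right]
    have e2 := hD (fun i => w (some i)) (w none) (w (some i0)) e c d f
    rw [update_eq_self i0 fun i => w (some i)] at e2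
    exact eq_neg_of_add_eq_zero_left e2
  · intro j hj w
    beta_reduce
    have e1 : (fun i => w (Equiv.swap (some i0) (some j) (some i))) =
        fun i => (fun i => w (some i)) (Equiv.swap i0 j i) := by
      funext l
      by_cases hl : l = i0
      · subst hl
        rw [Equiv.swap_apply_left, Equiv.swap_apply_left]
      · by_cases hl2 : l = j
        · subst hl2
          rw [Equiv.swap_apply_right, Equiv.swap_apply_right]
        · rw [Equiv.swap_apply_of_ne_of_ne, Equiv.swap_apply_of_ne_of_ne hl hl2]
          · exact fun e => hl (Option.some.inj e)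
          · exact fun e => hl2 (Option.some.inj e)
    rw [e1, hψ.anti hj.symm fun i => w (some i),
      Equiv.swap_apply_of_ne_of_ne (Option.some_ne_none _).symm (Option.some_ne_none _).symm]
    have e2 : ∀ a b c d e f : B, kap (-a) b c d e f = - kap a b c d e f := by
      intro a b c d e f
      simp only [kap, asc_neg1, neg_mul]
      abel
    rw [e2]
  · intro z x y
    simp only [upd_none, update_self]
    rw [kap_u h, kap_add, kap_u h _ x, kap_u h _ y]
    abel
  · intro z x y
    simp only [upd_none, update_self]
    rw [kap_u h, kap_mul h, kap_u h _ x, kap_u h _ y, mul_neg, mul_neg]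
    abel

theorem stepF_ad {i1 : ι} (hi : i0 ≠ i1)
    (hid : ∀ (z : ι → B) (x y q a b c : B), asc x y (ψ (update (update z i0 x) i1 q) *
      asc a b c) = 0) (y a b c : B) : AD fun w : Option ι → B =>
    asc (w none) y (ψ (fun i => w (some i)) * asc a b c) := by
  refine AD.mk' h none (anti_option (i0 := i0) ?_ ?_) ?_ ?_
  · intro w
    beta_reduce
    have e1 : (fun i => w (Equiv.swap (some i0) none (some i))) =
        update (update (fun i => w (some i)) i0 (w none)) i1 (w (some i1)) := by
      rw [← upd_some w hi.symm]
      funext l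
      by_cases hl : l = i0
      · subst hl
        rw [update_self, Equiv.swap_apply_left]
      · rw [update_of_ne hl, Equiv.swap_apply_of_ne_of_ne]
        · exact fun e => hl (Option.some.inj e)
        · exact fun e => Option.some_ne_none _ e
    have e3 : (fun i => w (some i)) =
        update (update (fun i => w (some i)) i0 (w (some i0))) i1 (w (some i1)) := by
      rw [update_eq_self i0 fun i => w (some i), update_eq_self i1 fun i => w (some i)]
    have hb := hψ.bi hi fun i => w (some i)
    have e2 := fun x => hid (fun i => w (some i)) x y (w (some i1)) a b c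
    have e4 := e2 (w none + w (some i0))
    have e5 := e2 (w none)
    have e6 := e2 (w (some i0))
    have e7 := hb.addl (w none) (w (some i0)) (w (some i1))
    beta_reduce at e7
    rw [e1, Equiv.swap_apply_right, eq_neg_iff_add_eq_zero]
    nth_rw 2 [e3]
    rw [e7, asc_add1, add_mul, asc_add3, asc_add3, e5, e6, zero_add, add_zero] at e4
    rw [add_comm]
    exact e4
  · intro j hj w
    beta_reduce
    have e1 : (fun i => w (Equiv.swap (some i0) (some j) (some i))) =
        fun i => (fun i => w (some i)) (Equiv.swap i0 j i) := by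
      funext l
      by_cases hl : l = i0
      · subst hl
        rw [Equiv.swap_apply_left, Equiv.swap_apply_left]
      · by_cases hl2 : l = j
        · subst hl2
          rw [Equiv.swap_apply_right, Equiv.swap_apply_right]
        · rw [Equiv.swap_apply_of_ne_of_ne, Equiv.swap_apply_of_ne_of_ne hl hl2]
          · exact fun e => hl (Option.some.inj e)
          · exact fun e => hl2 (Option.some.inj e)
    rw [e1, hψ.anti hj.symm fun i => w (some i),
      Equiv.swap_apply_of_ne_of_ne (Option.some_ne_none _).symm (Option.some_ne_none _).symm,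
      neg_mul, asc_neg3]
  · intro z x y
    simp only [upd_none, update_self, asc_add1]
  · intro z x y
    simp only [upd_none, update_self]
    rw [h.m1]

end step

/-! ### the descent -/

section main

variable {B : Type} [NonUnitalNonAssocCommRing B] {Q : ∀ ι : Type, ((ι → B) → B) → Prop}
  (h : CA B) (hQ : Clone B Q) (hnuc : ∀ g : B, (∀ y z, asc g y z = 0) → g = 0)
  (hann : ∀ g : B, (∀ x y z, g * asc x y z = 0) → (∀ a x y z, g * (a * asc x y z) = 0) → g = 0)
include h hQ hnuc hann

theorem van_step (k : ℕ) (hk : 2 ≤ k) (hV : Van B Q (k + 1)) : Van B Q k := by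
  intro ι _ _ hc ψ hψQ hψ z
  obtain ⟨i0, i1, hi⟩ : ∃ i0 i1 : ι, i0 ≠ i1 := by
    have : 1 < Fintype.card ι := by omega
    exact Fintype.exists_pair_of_one_lt_card this
  have hV' := hV (Option ι) (by rw [Fintype.card_option, hc])
  -- step R
  have hR : ∀ (z : ι → B) (u p a c q : B),
      asc u p c * asc c a (ψ (update (update z i0 a) i1 q)) -
      asc u p a * asc a c (ψ (update (update z i0 c) i1 q)) = 0 := by
    intro z u p a c q
    have e := hV' _ (hQ.sub _ _ _
      (hQ.mul _ _ _ (hQ.asc' (hQ.proj _ none) (hQ.proj _ (some i0)) (hQ.const _ c))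
        (hQ.asc' (hQ.const _ c) (hQ.const _ a) (hQ.upd hψQ i0 a)))
      (hQ.mul _ _ _ (hQ.asc' (hQ.proj _ none) (hQ.proj _ (some i0)) (hQ.const _ a))
        (hQ.asc' (hQ.const _ a) (hQ.const _ c) (hQ.upd hψQ i0 c))))
      (stepR_ad h hψ i0 hi a c)
      (fun o => o.elim u fun i => update (update z i0 p) i1 q i)
    simp only [Option.elim_none, Option.elim_some] at e
    have e1 : ∀ a : B, update (fun i => update (update z i0 p) i1 q i) i0 a =
        update (update z i0 a) i1 q := by
      intro a
      rw [show (fun i => update (update z i0 p) i1 q i) = update (update z i0 p) i1 q from rfl,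
        update_comm hi, update_idem, update_comm hi.symm]
    rw [e1, e1, update_of_ne hi, update_self] at e
    exact e
  -- step Delta
  have hD : ∀ (z : ι → B) (p q x y c d : B), kap (ψ (update z i0 p)) q x y c d +
      kap (ψ (update z i0 q)) p x y c d = 0 := by
    intro z p q x y c d
    have e := hV' _ (hQ.add _ _ _
      (hQ.kap' (hQ.upd hψQ i0 p) (hQ.const _ q) (hQ.proj _ (some i0)) (hQ.proj _ none)
        (hQ.const _ c) (hQ.const _ d))
      (hQ.kap' (hQ.upd hψQ i0 q) (hQ.const _ p) (hQ.proj _ (some i0)) (hQ.proj _ none)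
        (hQ.const _ c) (hQ.const _ d)))
      (stepD_ad h hψ i0 p q c d) (fun o => o.elim y fun i => update z i0 x i)
    simp only [Option.elim_none, Option.elim_some] at e
    have e1 : ∀ a : B, update (fun i => update z i0 x i) i0 a = update z i0 a := by
      intro a
      rw [show (fun i => update z i0 x i) = update z i0 x from rfl, update_idem]
    rw [e1, e1, update_self] at e
    exact e
  -- step G
  have hG : ∀ (z : ι → B) (u e c d f : B), kap (ψ z) u e c d f = 0 := by
    intro z u e c d f
    exact hV' _ (hQ.kap' (hQ.opt hψQ) (hQ.proj _ none) (hQ.const _ e) (hQ.const _ c)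
      (hQ.const _ d) (hQ.const _ f)) (stepG_ad h hψ i0 hD e c d f)
      (fun o => o.elim u z)
  -- step f
  have hid : ∀ (z : ι → B) (x y q a b c : B), asc x y (ψ (update (update z i0 x) i1 q) *
      asc a b c) = 0 := by
    intro z x y q a b c
    have hb := hψ.bi hi z
    exact id7 h hb (polyR h hb (hR z)) (fun d e => hG _) x y q a b c
  have hF : ∀ (z : ι → B) (u y a b c : B), asc u y (ψ z * asc a b c) = 0 := by
    intro z u y a b c
    exact hV' _ (hQ.asc' (hQ.proj _ none) (hQ.const _ y) (hQ.mul _ _ _ (hQ.opt hψQ)
      (hQ.const _ (asc a b c)))) (stepF_ad h hψ i0 hi hid y a b c)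
      (fun o => o.elim u z)
  have hm : ∀ a b c, ψ z * asc a b c = 0 := by
    intro a b c
    refine hnuc _ fun y u => ?_
    rw [h.cyc, hF]
  refine hann _ hm (H51.h51_ann h.isAlt (fun x hx => h.two ?_) _ hm fun a b c => ?_)
  · rwa [two_nsmul] at hx
  · rw [mul_comm, hm]

theorem cc_main (hV : ∃ n, ∀ m, n ≤ m → Van B Q m) (x y z : B) : asc x y z = 0 := by
  obtain ⟨n, hn⟩ := hV
  have hall : ∀ k m, 2 ≤ m → n ≤ m + k → Van B Q m := by
    intro k
    induction k with
    | zero => intro m _ hm; exact hn m hm
    | succ k ih =>
      intro m h2 hm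
      exact van_step h hQ hnuc hann m h2 (ih (m + 1) (by omega) (by omega))
  have h3 := hall n 3 (by norm_num) (by omega) (Fin 3) (Fintype.card_fin 3)
    (fun w => asc (w 0) (w 1) (w 2)) (hQ.asc' (hQ.proj _ 0) (hQ.proj _ 1) (hQ.proj _ 2))
  have had : AD fun w : Fin 3 → B => asc (w 0) (w 1) (w 2) := by
    have n01 : (0 : Fin 3) ≠ 1 := by decide
    have n02 : (0 : Fin 3) ≠ 2 := by decide
    have n12 : (1 : Fin 3) ≠ 2 := by decide
    constructor
    · intro z i a b
      match i with
      | 0 =>
        simp only [update_self, update_of_ne n01.symm, update_of_ne n02.symm, asc_add1]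
      | 1 =>
        simp only [update_self, update_of_ne n01, update_of_ne n12.symm, asc_add2]
      | 2 =>
        simp only [update_self, update_of_ne n02, update_of_ne n12, asc_add3]
    · intro z i a b
      match i with
      | 0 =>
        simp only [update_self, update_of_ne n01.symm, update_of_ne n02.symm, h.m1]
      | 1 =>
        simp only [update_self, update_of_ne n01, update_of_ne n12.symm, h.m2]
      | 2 =>
        simp only [update_self, update_of_ne n02, update_of_ne n12, h.m3]
    · intro z i j hij hz
      match i, j, hij, hz with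
      | 0, 0, hij, _ => exact absurd rfl hij
      | 1, 1, hij, _ => exact absurd rfl hij
      | 2, 2, hij, _ => exact absurd rfl hij
      | 0, 1, _, hz => rw [hz, h.e12]
      | 1, 0, _, hz => rw [hz, h.e12]
      | 0, 2, _, hz => rw [hz, h.e13]
      | 2, 0, _, hz => rw [hz, h.e13]
      | 1, 2, _, hz => rw [hz, h.e23]
      | 2, 1, _, hz => rw [hz, h.e23]
  exact h3 had ![x, y, z]

end main

theorem cc : CCStmt := fun _ _ _ h hQ hnuc hann hV => cc_main h hQ hnuc hann hV

end Pool.Agent.C3
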