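import Pool.Agent.Helper57_C3.CC

/-!
# Module LN from the descent (helper57; LN by helper59)
-/

set_option autoImplicit false

namespace Pool.Agent.C3

open Pool.Agent.TP Function

section conv

variable {B : Type} [NonUnitalNonAssocCommRing B] (h : CA B) {ι : Type} [DecidableEq ι]

/-- function of a list -/
def lfun {m : ℕ} (e : Fin m ≃ ι) (ψ : (ι → B) → B) (l : List B) : B :=
  ψ fun i => l.getD (e.symm i).val 0

omit [DecidableEq ι] in
theorem lfun_ofFn {m : ℕ} (e : Fin m ≃ ι) (ψ : (ι → B) → B) (z : ι → B) :
    lfun e ψ (List.ofFn fun k => z (e k)) = ψ z := by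
  unfold lfun
  congr 1
  funext i
  rw [List.getD_eq_getElem _ _ (by rw [List.length_ofFn]; exact (e.symm i).2), List.getElem_ofFn]
  simp

theorem cons_update {m : ℕ} (e : Fin m ≃ ι) (hm : 0 < m) (a : B) (l : List B) :
    (fun i => (a :: l).getD (e.symm i).val 0) =
      update (fun i => (0 :: l).getD (e.symm i).val 0) (e ⟨0, hm⟩) a := by
  funext i
  by_cases hi : i = e ⟨0, hm⟩
  · subst hi
    rw [update_self, Equiv.symm_apply_apply]
    rfl
  · rw [update_of_ne hi]
    have hne : (e.symm i).val ≠ 0 := by
      intro h0
      apply hi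
      rw [← e.symm_apply_eq]
      exact Fin.ext h0
    obtain ⟨k, hk⟩ := Nat.exists_eq_succ_of_ne_zero hne
    rw [hk]
    rfl

theorem getD_swap (l1 : List B) (a b : B) (l2 : List B) (k : ℕ) :
    (l1 ++ b :: a :: l2).getD k 0 = (l1 ++ a :: b :: l2).getD
      (Equiv.swap l1.length (l1.length + 1) k) 0 := by
  induction l1 generalizing k with
  | nil =>
    simp only [List.nil_append, List.length_nil, zero_add]
    match k with
    | 0 => rw [Equiv.swap_apply_left]; rfl
    | 1 => rw [Equiv.swap_apply_right]; rfl
    | k + 2 => rw [Equiv.swap_apply_of_ne_of_ne (by omega) (by omega)]; rfl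
  | cons c l1 ih =>
    match k with
    | 0 =>
      rw [Equiv.swap_apply_of_ne_of_ne (by simp) (by simp)]
      rfl
    | k + 1 =>
      have e1 : Equiv.swap (c :: l1).length ((c :: l1).length + 1) (k + 1) =
          Equiv.swap l1.length (l1.length + 1) k + 1 := by
        simp only [List.length_cons]
        by_cases h1 : k = l1.length
        · subst h1
          rw [Equiv.swap_apply_left, Equiv.swap_apply_left]
        · by_cases h2 : k = l1.length + 1
          · subst h2
            rw [Equiv.swap_apply_right, Equiv.swap_apply_right]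
          · rw [Equiv.swap_apply_of_ne_of_ne (by omega) (by omega),
              Equiv.swap_apply_of_ne_of_ne h1 h2]
      rw [e1]
      exact ih k

theorem lfun_md {ψ : (ι → B) → B} (hψ : AD ψ) {m : ℕ} (e : Fin m ≃ ι) :
    LN.IsMD m (lfun e ψ) where
  swap l1 a b l2 hl := by
    simp only [List.length_append, List.length_cons] at hl
    have h0 : l1.length < m := by omega
    have h1 : l1.length + 1 < m := by omega
    have hne : e ⟨l1.length, h0⟩ ≠ e ⟨l1.length + 1, h1⟩ := by
      intro he
      have := congrArg Fin.val (e.injective he)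
      simp at this
    have e1 := hψ.anti hne fun i => (l1 ++ a :: b :: l2).getD (e.symm i).val 0
    have e2 : (fun i => (l1 ++ b :: a :: l2).getD (e.symm i).val 0) =
        fun l => (fun i => (l1 ++ a :: b :: l2).getD (e.symm i).val 0)
          (Equiv.swap (e ⟨l1.length, h0⟩) (e ⟨l1.length + 1, h1⟩) l) := by
      funext i
      rw [getD_swap]
      congr 1
      by_cases g1 : i = e ⟨l1.length, h0⟩
      · subst g1
        rw [Equiv.swap_apply_left, Equiv.symm_apply_apply, Equiv.symm_apply_apply,
          Equiv.swap_apply_left]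
      · have g1' : (e.symm i).val ≠ l1.length := by
          intro h0
          apply g1
          rw [← e.symm_apply_eq]
          exact Fin.ext h0
        by_cases g2 : i = e ⟨l1.length + 1, h1⟩
        · subst g2
          rw [Equiv.swap_apply_right, Equiv.symm_apply_apply, Equiv.symm_apply_apply,
            Equiv.swap_apply_right]
        · have g2' : (e.symm i).val ≠ l1.length + 1 := by
            intro h0
            apply g2
            rw [← e.symm_apply_eq]
            exact Fin.ext h0
          rw [Equiv.swap_apply_of_ne_of_ne g1 g2, Equiv.swap_apply_of_ne_of_ne g1' g2']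
    unfold lfun
    rw [e2, e1, neg_neg]
  add a b l hl := by
    have hm : 0 < m := by omega
    unfold lfun
    rw [cons_update e hm (a + b), cons_update e hm a, cons_update e hm b, hψ.add]
  der a b l hl := by
    have hm : 0 < m := by omega
    unfold lfun
    rw [cons_update e hm (a * b), cons_update e hm a, cons_update e hm b, hψ.leib]

end conv

theorem ccln : LN.CCStmt := by
  intro A inst h hnuc hann hM
  let inst' : NonUnitalNonAssocCommRing A := { inst with mul_comm := h.comm }
  have h' : @CA A inst' := ⟨h.three, h.alt.1⟩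
  obtain ⟨M, hM⟩ := hM
  refine @cc A inst' (fun _ _ => True) h' ?_ hnuc (fun g hg _ => hann g hg) ⟨M + 1, ?_⟩
  · constructor <;> intros <;> trivial
  · intro m hm ι _ _ hc ψ _ hψ z
    have e : Fin m ≃ ι := (Fintype.equivFinOfCardEq hc).symm
    have h1 := hM m (by omega) (lfun e ψ) (@lfun_md A inst' ι _ ψ hψ m e)
      (List.ofFn fun k => z (e k)) (List.length_ofFn)
    rwa [@lfun_ofFn A inst' ι m e ψ z] at h1

/-- uniform local nilpotency -/
theorem lnU : LN.LNStmt := LN.ln ccln

theorem ln3 : LNStmt := by
  intro M
  obtain ⟨N, hN⟩ := lnU M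
  exact ⟨N, fun B _ h hc a w hw => hN B h.toLN hc a w hw⟩

end Pool.Agent.C3
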