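import Pool.Agent.Helper57_C3.Stmts
import Pool.Agent.Helper59_TP3.LN

/-!
# Calculus in a commutative alternative ring of characteristic 3 (helper57)
-/

set_option autoImplicit false

namespace Pool.Agent.C3

open Pool.Agent.TP

variable {B : Type} [NonUnitalNonAssocCommRing B]

section lin

theorem asc_add1 (a b c d : B) : asc (a + b) c d = asc a c d + asc b c d := by
  unfold asc; simp only [add_mul]; abel

theorem asc_add2 (a b c d : B) : asc a (b + c) d = asc a b d + asc a c d := by
  unfold asc; simp only [add_mul, mul_add]; abel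

theorem asc_add3 (a b c d : B) : asc a b (c + d) = asc a b c + asc a b d := by
  unfold asc; simp only [mul_add]; abel

theorem asc_zero1 (a b : B) : asc 0 a b = 0 := by unfold asc; simp

theorem asc_zero2 (a b : B) : asc a 0 b = 0 := by unfold asc; simp

theorem asc_zero3 (a b : B) : asc a b 0 = 0 := by unfold asc; simp

theorem asc_neg1 (a b c : B) : asc (-a) b c = - asc a b c := by
  unfold asc; simp only [neg_mul]; abel

theorem asc_neg2 (a b c : B) : asc a (-b) c = - asc a b c := by
  unfold asc; simp only [neg_mul, mul_neg]; abel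

theorem asc_neg3 (a b c : B) : asc a b (-c) = - asc a b c := by
  unfold asc; simp only [mul_neg]; abel

theorem asc_sub1 (a b c d : B) : asc (a - b) c d = asc a c d - asc b c d := by
  rw [sub_eq_add_neg, asc_add1, asc_neg1, sub_eq_add_neg]

theorem asc_sub2 (a b c d : B) : asc a (b - c) d = asc a b d - asc a c d := by
  rw [sub_eq_add_neg, asc_add2, asc_neg2, sub_eq_add_neg]

theorem asc_sub3 (a b c d : B) : asc a b (c - d) = asc a b c - asc a b d := by
  rw [sub_eq_add_neg, asc_add3, asc_neg3, sub_eq_add_neg]

end lin

namespace CA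

variable (h : CA B)
include h

theorem toLN : LN.CA B where
  alt := ⟨h.alt, fun x y => by
    rw [mul_comm (y * x) x, mul_comm y x, ← h.alt x y, mul_comm]⟩
  comm := mul_comm
  three := h.three

theorem isAlt : IsAlt B := h.toLN.alt

theorem two {a : B} (ha : a + a = 0) : a = 0 := LN.eq_of_two h.toLN ha

theorem two_neg (a : B) : a + a = -a := LN.two_neg h.toLN a

theorem s12 (a b c : B) : asc a b c = - asc b a c := H51.asc_s12 h.isAlt a b c

theorem s13 (a b c : B) : asc a b c = - asc c b a := H51.asc_s13 h.isAlt a b c

theorem s23 (a b c : B) : asc a b c = - asc a c b := by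
  rw [h.s12 a b c, h.s13 b a c, neg_neg, h.s12 c a b]

theorem cyc (a b c : B) : asc a b c = asc b c a := by
  rw [h.s12 a b c, h.s23 b a c, neg_neg]

theorem e12 (a b : B) : asc a a b = 0 := h.two (by
  have := h.s12 a a b
  rw [eq_neg_iff_add_eq_zero] at this
  exact this)

theorem e13 (a b : B) : asc a b a = 0 := by rw [h.s23, h.e12, neg_zero]

theorem e23 (a b : B) : asc a b b = 0 := by rw [h.cyc, h.e12]

/-- `(a b) c = - a (b c) - b (a c)` -/
theorem mul_l (a b c : B) : a * b * c = - (a * (b * c)) - b * (a * c) := LN.mul_l h.toLN a b c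

theorem m1 (a b c d : B) : asc (a * b) c d = a * asc b c d + b * asc a c d :=
  LN.asc_mul1 h.toLN a b c d

theorem m2 (a b c d : B) : asc c (a * b) d = a * asc c b d + b * asc c a d := by
  rw [h.s12, h.m1, h.s12 b, h.s12 a, mul_neg, mul_neg]; abel

theorem m3 (a b c d : B) : asc c d (a * b) = a * asc c d b + b * asc c d a := by
  rw [h.cyc, h.m2, ← h.cyc c d b, ← h.cyc c d a]

/-- commutator of two left multiplications -/
theorem comm_l (a b c : B) : a * (b * c) - b * (a * c) = asc a b c := by
  rw [h.cyc a b c]
  unfold asc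
  rw [mul_comm (b * c) a, mul_comm c a]

omit h in
theorem assoc' (a b c : B) : a * b * c = a * (b * c) + asc a b c := by
  unfold asc; abel

/-- Filippov identity -/
theorem fil (a b c d e : B) : asc a b (asc c d e) =
    asc (asc a b c) d e + asc c (asc a b d) e + asc c d (asc a b e) := by
  have e1 : asc c d e = c * d * e - c * (d * e) := rfl
  have e2 : ∀ x y : B, asc a b (x * y) = asc a b x * y + x * asc a b y := by
    intro x y
    rw [h.m3, mul_comm y (asc a b x)]; abel
  rw [e1, asc_sub3, e2, e2, e2, e2]
  unfold asc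
  simp only [add_mul, mul_add]
  abel

theorem nat_smul (k : ℕ) (x : B) : k • x = (k % 3) • x := by
  have e3 : (3 : ℕ) • x = 0 := by
    rw [show (3 : ℕ) = 2 + 1 from rfl, add_smul, two_smul, one_smul]
    exact h.three x
  conv_lhs => rw [← Nat.div_add_mod k 3]
  rw [add_smul, mul_comm 3, mul_smul, e3, smul_zero, zero_add]

theorem neg_eq (x : B) : -x = 2 • x := by rw [two_smul, h.two_neg]

end CA

/-- alternating biderivation -/
structure Bi (α : B → B → B) : Prop where
  addl : ∀ a b c, α (a + b) c = α a c + α b c
  leibl : ∀ a b c, α (a * b) c = a * α b c + b * α a c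
  skew : ∀ a b, α a b = - α b a

namespace Bi

variable {α : B → B → B} (hα : Bi α)
include hα

theorem addr (a b c : B) : α c (a + b) = α c a + α c b := by
  rw [hα.skew, hα.addl, hα.skew c a, hα.skew c b]; abel

theorem leibr (a b c : B) : α c (a * b) = a * α c b + b * α c a := by
  rw [hα.skew, hα.leibl, hα.skew c a, hα.skew c b, mul_neg, mul_neg]; abel

theorem zl (c : B) : α 0 c = 0 := by
  have := hα.addl 0 0 c
  rw [add_zero] at this
  exact left_eq_add.mp this

theorem zr (c : B) : α c 0 = 0 := by rw [hα.skew, hα.zl, neg_zero]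

theorem negl (a c : B) : α (-a) c = - α a c := by
  have := hα.addl a (-a) c
  rw [add_neg_cancel, hα.zl] at this
  exact (neg_eq_of_add_eq_zero_right this.symm).symm

theorem subl (a b c : B) : α (a - b) c = α a c - α b c := by
  rw [sub_eq_add_neg, hα.addl, hα.negl, sub_eq_add_neg]

theorem alt (h : CA B) (a : B) : α a a = 0 := h.two (by
  have := hα.skew a a
  rw [eq_neg_iff_add_eq_zero] at this
  exact this)

/-- a biderivation acts on associators -/
theorem on_asc (a b c d : B) : α (asc a b c) d =
    asc (α a d) b c + asc a (α b d) c + asc a b (α c d) := by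
  have e1 : asc a b c = a * b * c - a * (b * c) := rfl
  rw [e1, hα.subl, hα.leibl, hα.leibl, hα.leibl, hα.leibl]
  unfold asc
  rw [mul_comm (α a d * b) c, mul_comm (α a d) b, mul_comm (α a d) (b * c),
    mul_comm (a * α b d) c, mul_comm (α b d) c]
  simp only [mul_add]
  abel

end Bi

end Pool.Agent.C3
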