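import Pool.Agent.Helper57_C3.Rel

/-!
# Certificates (helper57)
-/

set_option autoImplicit false

namespace Pool.Agent.C3

open Pool.Agent.TP

/-- certificate -/
def cert6 : List (ℕ × Rel) := [
  (1, .c2 (.t (.p (.v 0) (.v 1))) (.v 0) (.v 1) (.v 2) (.v 3) (.v 4)),
  (1, .c2 (.t (.v 2)) (.v 0) (.v 1) (.v 3) (.p (.v 0) (.v 1)) (.v 4)),
  (2, .mul (.t (.v 0) (.v 2) (.v 4)) (.c1 .p (.v 0) (.v 1) (.v 1) (.v 3))),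
  (1, .c2 (.b (.v 0) (.v 0)) (.v 1) (.v 2) (.v 1) (.v 4) (.v 3)),
  (2, .c2 (.b (.v 1) (.v 1)) (.v 2) (.v 0) (.v 0) (.v 4) (.v 3))]

/-- certificate -/
def cert7 : List (ℕ × Rel) := [
  (1, .c2 (.t (.v 3)) (.v 0) (.p (.v 4) (.v 5)) (.v 0) (.v 1) (.v 2)),
  (2, .c2 (.t (.v 4)) (.p (.v 1) (.v 5)) (.v 0) (.v 0) (.v 2) (.v 3)),
  (1, .c2 (.b (.v 0) (.v 5)) (.v 0) (.v 1) (.v 3) (.v 2) (.v 4)),
  (2, .kk (.v 0) (.v 1) (.v 0) (.v 2) (.v 3) (.v 4) (.v 5)),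
  (1, .c2 (.b (.v 1) (.v 2)) (.v 0) (.v 0) (.v 4) (.v 3) (.v 5)),
  (1, .c2 (.b (.v 1) (.v 2)) (.v 0) (.v 0) (.v 3) (.v 5) (.v 4)),
  (2, .c2 (.t (.p (.v 0) (.v 5))) (.v 0) (.v 1) (.v 2) (.v 3) (.v 4)),
  (2, .c2 (.b (.v 1) (.v 2)) (.v 0) (.v 3) (.v 0) (.v 4) (.v 5)),
  (2, .c2 (.t (.v 3)) (.v 0) (.v 1) (.p (.v 0) (.v 4)) (.v 2) (.v 5)),
  (1, .mul (.t (.v 0) (.v 1) (.v 3)) (.c1 .p (.v 0) (.v 2) (.v 5) (.v 4))),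
  (1, .c2 (.t (.v 4)) (.v 0) (.v 1) (.p (.v 0) (.v 2)) (.v 3) (.v 5)),
  (1, .c2 (.t (.p (.v 0) (.v 2))) (.v 0) (.v 1) (.v 3) (.v 5) (.v 4)),
  (2, .mul (.t (.v 0) (.v 1) (.v 4)) (.c1 .p (.v 0) (.v 2) (.v 5) (.v 3))),
  (2, .c2 (.b (.v 1) (.v 5)) (.v 0) (.v 3) (.v 0) (.v 4) (.v 2)),
  (1, .rr (.v 0) (.v 2) (.v 0) (.v 1) (.v 4) (.v 3) (.v 5)),
  (1, .mul (.t (.v 0) (.v 2) (.v 3)) (.c1 .p (.v 0) (.v 1) (.v 4) (.v 5))),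
  (2, .c2 (.b (.v 2) (.v 3)) (.v 0) (.v 1) (.v 0) (.v 5) (.v 4)),
  (2, .c2 (.b (.v 2) (.v 3)) (.v 0) (.v 4) (.v 0) (.v 5) (.v 1)),
  (1, .mul (.t (.v 0) (.v 4) (.v 5)) (.c1 .p (.v 0) (.v 1) (.v 3) (.v 2))),
  (2, .rr (.v 0) (.v 5) (.v 2) (.v 0) (.v 1) (.v 3) (.v 4)),
  (1, .c2 (.b (.v 0) (.v 0)) (.v 1) (.v 2) (.v 3) (.v 4) (.v 5)),
  (2, .c2 (.b (.v 0) (.v 0)) (.v 1) (.v 3) (.v 2) (.v 4) (.v 5)),
  (1, .rr (.v 1) (.v 2) (.v 5) (.v 0) (.v 0) (.v 3) (.v 4)),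
  (2, .c2 (.b (.v 2) (.v 5)) (.v 1) (.v 0) (.v 0) (.v 4) (.v 3)),
  (2, .c2 (.b (.v 3) (.v 4)) (.v 1) (.v 0) (.v 0) (.v 5) (.v 2)),
  (1, .rr (.v 1) (.v 3) (.v 5) (.v 0) (.v 2) (.v 0) (.v 4)),
  (1, .rr (.v 1) (.v 5) (.v 0) (.v 0) (.v 2) (.v 3) (.v 4)),
  (1, .c2 (.b (.v 0) (.v 3)) (.v 2) (.v 1) (.v 0) (.v 4) (.v 5)),
  (1, .rr (.v 2) (.v 3) (.v 1) (.v 0) (.v 4) (.v 0) (.v 5)),
  (1, .c2 (.b (.v 0) (.v 0)) (.v 3) (.v 1) (.v 4) (.v 2) (.v 5)),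
  (2, .c2 (.b (.v 0) (.v 1)) (.v 3) (.v 0) (.v 2) (.v 4) (.v 5)),
  (1, .c2 (.b (.v 0) (.v 1)) (.v 3) (.v 2) (.v 0) (.v 4) (.v 5)),
  (1, .c2 (.b (.v 1) (.v 5)) (.v 3) (.v 0) (.v 0) (.v 2) (.v 4)),
  (2, .mul (.t (.v 3) (.v 4) (.v 5)) (.c1 .p (.v 0) (.v 1) (.v 0) (.v 2))),
  (1, .mul (.t (.v 0) (.v 1) (.v 2)) (.psiT (.v 3) (.v 4) (.v 5) (.v 0))),
  (1, .c2 .p (.v 0) (.t (.v 3) (.v 4) (.v 5)) (.v 0) (.v 2) (.v 1)),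
  (1, .c2 (.b (.v 0) (.v 0)) (.v 4) (.v 1) (.v 3) (.v 2) (.v 5)),
  (2, .c2 (.b (.v 0) (.v 1)) (.v 4) (.v 2) (.v 0) (.v 3) (.v 5)),
  (2, .c2 (.b (.v 0) (.v 2)) (.v 4) (.v 1) (.v 0) (.v 3) (.v 5)),
  (1, .c2 (.b (.v 0) (.v 2)) (.v 4) (.v 1) (.v 0) (.v 5) (.v 3)),
  (2, .rr (.v 4) (.v 5) (.v 1) (.v 0) (.v 0) (.v 2) (.v 3))]

/-- certificate -/
def certU : List (ℕ × Rel) := [
  (2, .c2 (.t (.v 1)) (.v 0) (.v 2) (.v 3) (.v 4) (.v 5)),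
  (1, .c2 (.t (.v 1)) (.v 0) (.v 2) (.v 4) (.v 3) (.v 5))]
/-- certificate -/
def certD : List (ℕ × Rel) := [
  (1, .fil (.v 0) (.t (.v 1) (.v 2) (.v 3)) (.v 4) (.v 5) (.v 6)),
  (2, .fil (.v 0) (.t (.v 1) (.v 2) (.v 4)) (.v 3) (.v 5) (.v 6)),
  (1, .fil (.v 0) (.t (.v 1) (.v 2) (.v 5)) (.v 3) (.v 4) (.v 6)),
  (2, .fil (.v 0) (.t (.v 1) (.v 2) (.v 6)) (.v 3) (.v 4) (.v 5)),
  (1, .fil (.v 0) (.t (.v 1) (.v 3) (.v 4)) (.v 2) (.v 5) (.v 6)),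
  (2, .fil (.v 0) (.t (.v 1) (.v 3) (.v 5)) (.v 2) (.v 4) (.v 6)),
  (1, .fil (.v 0) (.t (.v 1) (.v 3) (.v 6)) (.v 2) (.v 4) (.v 5)),
  (1, .fil (.v 0) (.t (.v 1) (.v 4) (.v 5)) (.v 2) (.v 3) (.v 6)),
  (2, .fil (.v 0) (.t (.v 1) (.v 4) (.v 6)) (.v 2) (.v 3) (.v 5)),
  (1, .fil (.v 0) (.t (.v 1) (.v 5) (.v 6)) (.v 2) (.v 3) (.v 4)),
  (2, .der (.v 2) (.v 3) (.c1 (.t (.v 5)) (.v 0) (.v 1) (.v 4) (.v 6))),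
  (1, .der (.v 2) (.v 4) (.fil (.v 0) (.v 3) (.v 1) (.v 5) (.v 6))),
  (2, .der (.v 2) (.v 5) (.fil (.v 0) (.v 3) (.v 1) (.v 4) (.v 6))),
  (2, .der (.v 2) (.v 6) (.fil (.v 0) (.v 4) (.v 1) (.v 3) (.v 5))),
  (2, .der (.v 3) (.v 4) (.fil (.v 0) (.v 2) (.v 1) (.v 5) (.v 6))),
  (1, .der (.v 3) (.v 5) (.fil (.v 0) (.v 2) (.v 1) (.v 4) (.v 6))),
  (1, .der (.v 3) (.v 6) (.fil (.v 0) (.v 4) (.v 1) (.v 2) (.v 5))),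
  (1, .der (.v 4) (.v 5) (.fil (.v 0) (.v 3) (.v 1) (.v 2) (.v 6))),
  (1, .der (.v 4) (.v 6) (.fil (.v 0) (.v 5) (.v 1) (.v 2) (.v 3))),
  (2, .der (.v 5) (.v 6) (.fil (.v 0) (.v 2) (.v 1) (.v 3) (.v 4))),
  (1, .fil (.v 1) (.t (.v 0) (.v 2) (.v 3)) (.v 4) (.v 5) (.v 6)),
  (2, .fil (.v 1) (.t (.v 0) (.v 2) (.v 4)) (.v 3) (.v 5) (.v 6)),
  (1, .fil (.v 1) (.t (.v 0) (.v 2) (.v 5)) (.v 3) (.v 4) (.v 6)),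
  (2, .fil (.v 1) (.t (.v 0) (.v 2) (.v 6)) (.v 3) (.v 4) (.v 5)),
  (1, .fil (.v 1) (.t (.v 0) (.v 3) (.v 4)) (.v 2) (.v 5) (.v 6)),
  (2, .fil (.v 1) (.t (.v 0) (.v 3) (.v 5)) (.v 2) (.v 4) (.v 6)),
  (1, .fil (.v 1) (.t (.v 0) (.v 3) (.v 6)) (.v 2) (.v 4) (.v 5)),
  (1, .fil (.v 1) (.t (.v 0) (.v 4) (.v 5)) (.v 2) (.v 3) (.v 6)),
  (2, .fil (.v 1) (.t (.v 0) (.v 4) (.v 6)) (.v 2) (.v 3) (.v 5)),
  (1, .fil (.v 1) (.t (.v 0) (.v 5) (.v 6)) (.v 2) (.v 3) (.v 4)),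
  (2, .der (.v 2) (.v 3) (.fil (.v 1) (.v 5) (.v 0) (.v 4) (.v 6))),
  (2, .der (.v 2) (.v 3) (.fil (.v 1) (.v 6) (.v 0) (.v 4) (.v 5))),
  (1, .der (.v 2) (.v 3) (.c1 (.t (.v 6)) (.v 1) (.v 0) (.v 4) (.v 5))),
  (1, .der (.v 2) (.v 4) (.fil (.v 1) (.v 3) (.v 0) (.v 5) (.v 6))),
  (2, .der (.v 2) (.v 5) (.fil (.v 1) (.v 3) (.v 0) (.v 4) (.v 6))),
  (2, .der (.v 2) (.v 6) (.fil (.v 1) (.v 4) (.v 0) (.v 3) (.v 5))),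
  (2, .der (.v 3) (.v 4) (.fil (.v 1) (.v 2) (.v 0) (.v 5) (.v 6))),
  (1, .der (.v 3) (.v 5) (.fil (.v 1) (.v 2) (.v 0) (.v 4) (.v 6))),
  (1, .der (.v 3) (.v 6) (.fil (.v 1) (.v 4) (.v 0) (.v 2) (.v 5))),
  (1, .der (.v 4) (.v 5) (.fil (.v 1) (.v 3) (.v 0) (.v 2) (.v 6))),
  (1, .der (.v 4) (.v 6) (.fil (.v 1) (.v 5) (.v 0) (.v 2) (.v 3))),
  (2, .der (.v 5) (.v 6) (.fil (.v 1) (.v 2) (.v 0) (.v 3) (.v 4)))]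
/-- certificate -/
def cert2 : List (ℕ × Rel) := [
  (2, .fil (.v 0) (.p (.v 1) (.v 3)) (.v 0) (.v 1) (.v 2)),
  (2, .c1 (.t (.v 2)) (.p (.v 0) (.v 3)) (.v 0) (.v 1) (.v 1)),
  (1, .c1 (.t (.p (.v 0) (.v 3))) (.v 0) (.v 1) (.v 1) (.v 2)),
  (2, .der (.v 1) (.v 3) (.psiT (.v 0) (.v 1) (.v 2) (.v 0))),
  (2, .c1 .p (.t (.v 0) (.v 1) (.v 2)) (.v 0) (.v 3) (.v 1)),
  (2, .der (.v 0) (.v 3) (.psiT (.v 0) (.v 1) (.v 2) (.v 1))),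
  (1, .c1 (.b (.v 0) (.v 2)) (.v 0) (.v 1) (.v 1) (.v 3)),
  (2, .c1 (.b (.v 1) (.v 2)) (.v 0) (.v 0) (.v 1) (.v 3))]

/-- target -/
def tgtD : Poly := [
  (1, .t (.v 0) (.t (.v 1) (.v 2) (.v 3)) (.t (.v 4) (.v 5) (.v 6))),
  (1, .t (.v 1) (.t (.v 0) (.v 2) (.v 3)) (.t (.v 4) (.v 5) (.v 6))),
  (2, .t (.v 0) (.t (.v 1) (.v 2) (.v 4)) (.t (.v 3) (.v 5) (.v 6))),
  (2, .t (.v 1) (.t (.v 0) (.v 2) (.v 4)) (.t (.v 3) (.v 5) (.v 6))),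
  (1, .t (.v 0) (.t (.v 1) (.v 2) (.v 5)) (.t (.v 3) (.v 4) (.v 6))),
  (1, .t (.v 1) (.t (.v 0) (.v 2) (.v 5)) (.t (.v 3) (.v 4) (.v 6))),
  (2, .t (.v 0) (.t (.v 1) (.v 2) (.v 6)) (.t (.v 3) (.v 4) (.v 5))),
  (2, .t (.v 1) (.t (.v 0) (.v 2) (.v 6)) (.t (.v 3) (.v 4) (.v 5))),
  (1, .t (.v 0) (.t (.v 1) (.v 3) (.v 4)) (.t (.v 2) (.v 5) (.v 6))),
  (1, .t (.v 1) (.t (.v 0) (.v 3) (.v 4)) (.t (.v 2) (.v 5) (.v 6))),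
  (2, .t (.v 0) (.t (.v 1) (.v 3) (.v 5)) (.t (.v 2) (.v 4) (.v 6))),
  (2, .t (.v 1) (.t (.v 0) (.v 3) (.v 5)) (.t (.v 2) (.v 4) (.v 6))),
  (1, .t (.v 0) (.t (.v 1) (.v 3) (.v 6)) (.t (.v 2) (.v 4) (.v 5))),
  (1, .t (.v 1) (.t (.v 0) (.v 3) (.v 6)) (.t (.v 2) (.v 4) (.v 5))),
  (1, .t (.v 0) (.t (.v 1) (.v 4) (.v 5)) (.t (.v 2) (.v 3) (.v 6))),
  (1, .t (.v 1) (.t (.v 0) (.v 4) (.v 5)) (.t (.v 2) (.v 3) (.v 6))),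
  (2, .t (.v 0) (.t (.v 1) (.v 4) (.v 6)) (.t (.v 2) (.v 3) (.v 5))),
  (2, .t (.v 1) (.t (.v 0) (.v 4) (.v 6)) (.t (.v 2) (.v 3) (.v 5))),
  (1, .t (.v 0) (.t (.v 1) (.v 5) (.v 6)) (.t (.v 2) (.v 3) (.v 4))),
  (1, .t (.v 1) (.t (.v 0) (.v 5) (.v 6)) (.t (.v 2) (.v 3) (.v 4)))]

/-- target -/
def tgt6 : Poly := (Rel.kk (.v 0) (.v 1) (.v 0) (.v 1) (.v 2) (.v 3) (.v 4)).poly

/-- target -/
def tgt7 : Poly := [(1, .m (.t (.v 0) (.v 1) (.p (.v 0) (.v 2))) (.t (.v 3) (.v 4) (.v 5))),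
  (1, .m (.p (.v 0) (.v 2)) (.t (.v 0) (.v 1) (.t (.v 3) (.v 4) (.v 5))))]

/-- target -/
def tgt2 : Poly := [(1, .t (.v 2) (.v 1) (.t (.v 1) (.v 0) (.p (.v 0) (.v 3)))),
  (2, .t (.v 2) (.v 0) (.t (.v 0) (.v 1) (.p (.v 1) (.v 3))))]

/-- the polynomial of `kap` -/
def kapT (u x1 x2 x3 x4 x5 : Tm) : Poly := [tt 1 u x1 x2 x3 x4 x5, tt 2 u x1 x3 x2 x4 x5,
      tt 1 u x1 x4 x2 x3 x5, tt 2 u x1 x5 x2 x3 x4, tt 1 u x2 x3 x1 x4 x5,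
      tt 2 u x2 x4 x1 x3 x5, tt 1 u x2 x5 x1 x3 x4, tt 1 u x3 x4 x1 x2 x5,
      tt 2 u x3 x5 x1 x2 x4, tt 1 u x4 x5 x1 x2 x3]

/-- target -/
def tgtU : Poly := kapT (.v 0) (.v 1) (.v 2) (.v 3) (.v 4) (.v 5) ++
  kapT (.v 1) (.v 0) (.v 2) (.v 3) (.v 4) (.v 5)

/-- target: antisymmetry of `kap` in the last letters -/
def tgtA (i j k l m : ℕ) : Poly := kapT (.v 0) (.v 1) (.v 2) (.v 3) (.v 4) (.v 5) ++
  kapT (.v 0) (.v i) (.v j) (.v k) (.v l) (.v m)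

theorem chk6 : chk (scP 2 tgt6 ++ certP cert6) = true := by decide +kernel

theorem chk7 : chk (scP 2 tgt7 ++ certP cert7) = true := by decide +kernel

theorem chk2 : chk (scP 2 tgt2 ++ certP cert2) = true := by decide +kernel

theorem chkU : chk (scP 2 tgtU ++ certP certU) = true := by decide +kernel

theorem chkD : chk (scP 2 tgtD ++ certP certD) = true := by decide +kernel

theorem chkA1 : chk (tgtA 2 1 3 4 5) = true := by decide +kernel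

theorem chkA2 : chk (tgtA 1 3 2 4 5) = true := by decide +kernel

theorem chkA3 : chk (tgtA 1 2 4 3 5) = true := by decide +kernel

theorem chkA4 : chk (tgtA 1 2 3 5 4) = true := by decide +kernel

/-- an assignment -/
def env {B : Type} (a0 a1 a2 a3 a4 a5 a6 : B) : ℕ → B
  | 0 => a0
  | 1 => a1
  | 2 => a2
  | 3 => a3
  | 4 => a4
  | 5 => a5
  | _ => a6

section ids

variable {B : Type} [NonUnitalNonAssocCommRing B] (h : CA B) {α : B → B → B}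
include h

omit h in
theorem Bi.zero : Bi fun _ _ : B => (0 : B) where
  addl _ _ _ := (add_zero 0).symm
  leibl _ _ _ := by rw [mul_zero, mul_zero, add_zero]
  skew _ _ := neg_zero.symm

theorem kapT_ev (x : ℕ → B) (u x1 x2 x3 x4 x5 : Tm) : evP x α (kapT u x1 x2 x3 x4 x5) =
    kap (ev x α u) (ev x α x1) (ev x α x2) (ev x α x3) (ev x α x4) (ev x α x5) := by
  simp only [kapT, tt, evP, ev, one_smul, add_zero, ← h.neg_eq, kap]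
  abel

/-- antisymmetry of `kap` in the first two letters -/
theorem kap_u (u x1 x2 x3 x4 x5 : B) :
    kap u x1 x2 x3 x4 x5 = - kap x1 u x2 x3 x4 x5 := by
  have e := cert_sound (x := env u x1 x2 x3 x4 x5 0) h Bi.zero tgtU certU chkU (Or.inl rfl)
  rw [tgtU, evP_append, kapT_ev h, kapT_ev h] at e
  exact eq_neg_of_add_eq_zero_left e

theorem kap_12 (u x1 x2 x3 x4 x5 : B) :
    kap u x1 x2 x3 x4 x5 = - kap u x2 x1 x3 x4 x5 := by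
  have e := chk_sound (x := env u x1 x2 x3 x4 x5 0) h Bi.zero _ chkA1
  rw [tgtA, evP_append, kapT_ev h, kapT_ev h] at e
  exact eq_neg_of_add_eq_zero_left e

theorem kap_23 (u x1 x2 x3 x4 x5 : B) :
    kap u x1 x2 x3 x4 x5 = - kap u x1 x3 x2 x4 x5 := by
  have e := chk_sound (x := env u x1 x2 x3 x4 x5 0) h Bi.zero _ chkA2
  rw [tgtA, evP_append, kapT_ev h, kapT_ev h] at e
  exact eq_neg_of_add_eq_zero_left e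

theorem kap_34 (u x1 x2 x3 x4 x5 : B) :
    kap u x1 x2 x3 x4 x5 = - kap u x1 x2 x4 x3 x5 := by
  have e := chk_sound (x := env u x1 x2 x3 x4 x5 0) h Bi.zero _ chkA3
  rw [tgtA, evP_append, kapT_ev h, kapT_ev h] at e
  exact eq_neg_of_add_eq_zero_left e

theorem kap_45 (u x1 x2 x3 x4 x5 : B) :
    kap u x1 x2 x3 x4 x5 = - kap u x1 x2 x3 x5 x4 := by
  have e := chk_sound (x := env u x1 x2 x3 x4 x5 0) h Bi.zero _ chkA4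
  rw [tgtA, evP_append, kapT_ev h, kapT_ev h] at e
  exact eq_neg_of_add_eq_zero_left e

omit h in
/-- `kap` is additive in the first letter -/
theorem kap_add (u w x1 x2 x3 x4 x5 : B) :
    kap (u + w) x1 x2 x3 x4 x5 = kap u x1 x2 x3 x4 x5 + kap w x1 x2 x3 x4 x5 := by
  simp only [kap, asc_add1, add_mul]
  abel

/-- `kap` is a derivation in the first letter -/
theorem kap_mul (u w x1 x2 x3 x4 x5 : B) :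
    kap (u * w) x1 x2 x3 x4 x5 = u * kap w x1 x2 x3 x4 x5 + w * kap u x1 x2 x3 x4 x5 := by
  have e := cert_sound (x := env u w x1 x2 x3 x4 x5) h Bi.zero tgtD certD chkD (Or.inl rfl)
  simp only [tgtD, evP, ev, env, one_smul, add_zero, ← h.neg_eq] at e
  simp only [kap, h.m1, add_mul, mul_add, mul_sub, CA.assoc']
  linear_combination (norm := abel) e

/-- identity I6 -/
theorem kap6 (hα : Bi α) (i p x y z : B) : kap (α i p) i p x y z = 0 := by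
  have e := cert_sound (x := env i p x y z 0 0) h hα tgt6 cert6 chk6 (Or.inl rfl)
  rw [← e]
  simp only [tgt6, Rel.poly, tt, evP, ev, env, one_smul, add_zero, ← h.neg_eq, kap]
  abel

/-- identity I7 -/
theorem id7 (hα : Bi α) (hR : ∀ z1 z2 z3 c c' a a' : B, rr α z1 z2 z3 c c' a a' = 0)
    (hK : ∀ d e x1 x2 x3 x4 x5 : B, kap (α d e) x1 x2 x3 x4 x5 = 0) (x y p a b c : B) :
    asc x y (α x p * asc a b c) = 0 := by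
  have e := cert_sound (x := env x y p a b c 0) h hα tgt7 cert7 chk7 (Or.inr ⟨hR, hK⟩)
  simp only [tgt7, evP, ev, env, one_smul, add_zero] at e
  rw [h.m3, mul_comm (asc a b c), add_comm]
  exact e

/-- symmetry of the second derived biderivation -/
theorem id2 (hα : Bi α) (a c z1 z2 : B) : asc z1 c (asc c a (α a z2)) =
    asc z1 a (asc a c (α c z2)) := by
  have e := cert_sound (x := env a c z1 z2 0 0 0) h hα tgt2 cert2 chk2 (Or.inl rfl)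
  simp only [tgt2, evP, ev, env, one_smul, add_zero, ← h.neg_eq] at e
  rw [← sub_eq_add_neg, sub_eq_zero] at e
  exact e

end ids

end Pool.Agent.C3
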