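import Pool.Agent.Helper57_C3.CCLN
import Pool.Agent.Helper99_TP3.Comm3
import Pool.Agent.Helper19_TP3.Clos
import Pool.Agent.Helper59_TP3.FF

/-!
# MP_ce3ba7_al in characteristic 3 (helper19, helper48, helper50, helper57, helper59, helper66,
helper99)
-/

set_option autoImplicit false

namespace Pool.Agent.C3

open Pool.Agent.TP

theorem char3 : Char3Stmt := RC.char3 H19I.clos cc ln3 FF.ff

end Pool.Agent.C3
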