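import Pool.Agent.Helper57_C3.Calc

/-!
# Certificates in a commutative alternative ring of characteristic 3 (helper57)

Terms in the associator, an alternating biderivation and the product; normal form modulo the
alternating rules; relations; a checked linear combination of relations proves an identity.
-/

set_option autoImplicit false

namespace Pool.Agent.C3

open Pool.Agent.TP

/-- terms -/
inductive Tm : Type
  | v (n : ℕ) : Tm
  | t (a b c : Tm) : Tm
  | p (a b : Tm) : Tm
  | m (a b : Tm) : Tm

namespace Tm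

/-- equality test -/
def beq : Tm → Tm → Bool
  | v n, v k => Nat.beq n k
  | t a b c, t a' b' c' => beq a a' && (beq b b' && beq c c')
  | p a b, p a' b' => beq a a' && beq b b'
  | m a b, m a' b' => beq a a' && beq b b'
  | _, _ => false

theorem beq_eq : ∀ a b : Tm, beq a b = true → a = b
  | v n, v k, h => by rw [Nat.eq_of_beq_eq_true h]
  | t a b c, t a' b' c', h => by
    simp only [beq, Bool.and_eq_true] at h
    rw [beq_eq a a' h.1, beq_eq b b' h.2.1, beq_eq c c' h.2.2]
  | p a b, p a' b', h => by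
    simp only [beq, Bool.and_eq_true] at h
    rw [beq_eq a a' h.1, beq_eq b b' h.2]
  | m a b, m a' b', h => by
    simp only [beq, Bool.and_eq_true] at h
    rw [beq_eq a a' h.1, beq_eq b b' h.2]
  | v _, t _ _ _, h | v _, p _ _, h | v _, m _ _, h => by simp [beq] at h
  | t _ _ _, v _, h | t _ _ _, p _ _, h | t _ _ _, m _ _, h => by simp [beq] at h
  | p _ _, v _, h | p _ _, t _ _ _, h | p _ _, m _ _, h => by simp [beq] at h
  | m _ _, v _, h | m _ _, t _ _ _, h | m _ _, p _ _, h => by simp [beq] at h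

/-- a number used to sort terms -/
def code : Tm → ℕ
  | v n => n
  | t a b c => ((a.code * 1009 + b.code) * 1009 + c.code) * 16 + 13
  | p a b => (a.code * 1009 + b.code) * 16 + 14
  | m a b => (a.code * 1009 + b.code) * 16 + 15

end Tm

open Tm

/-- sort two entries; the sign is `1` or `2` -/
def sw2 (s : ℕ) (a b : Tm) : ℕ × Tm × Tm :=
  bif Nat.ble a.code b.code then (s, a, b) else (2 * s, b, a)

/-- normal form of an associator of normal terms -/
def nt (s : ℕ) (a b c : Tm) : ℕ × Tm :=
  let q1 := sw2 s a b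
  let q2 := sw2 q1.1 q1.2.2 c
  let q3 := sw2 q2.1 q1.2.1 q2.2.1
  (bif beq q3.2.1 q3.2.2 || beq q3.2.2 q2.2.2 then 0 else q3.1, .t q3.2.1 q3.2.2 q2.2.2)

/-- normal form of a biderivation of normal terms -/
def np (s : ℕ) (a b : Tm) : ℕ × Tm :=
  let q := sw2 s a b
  (bif beq q.2.1 q.2.2 then 0 else q.1, .p q.2.1 q.2.2)

/-- normal form of a product of normal terms -/
def nm (s : ℕ) (a b : Tm) : ℕ × Tm :=
  bif Nat.ble a.code b.code then (s, .m a b) else (s, .m b a)

/-- normal form -/
def nf : Tm → ℕ × Tm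
  | .v n => (1, .v n)
  | .t a b c =>
    let a' := nf a
    let b' := nf b
    let c' := nf c
    nt (a'.1 * b'.1 * c'.1) a'.2 b'.2 c'.2
  | .p a b =>
    let a' := nf a
    let b' := nf b
    np (a'.1 * b'.1) a'.2 b'.2
  | .m a b =>
    let a' := nf a
    let b' := nf b
    nm (a'.1 * b'.1) a'.2 b'.2

/-- polynomials -/
abbrev Poly := List (ℕ × Tm)

/-- add a monomial -/
def insT (c : ℕ) (x : Tm) : Poly → Poly
  | [] => [(c % 3, x)]
  | (d, y) :: L => bif beq x y then ((c + d) % 3, y) :: L else (d, y) :: insT c x L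

/-- normal form of a polynomial -/
def nfP : Poly → Poly → Poly
  | [], acc => acc
  | (c, x) :: P, acc => nfP P (insT (c * (nf x).1) (nf x).2 acc)

/-- test for zero -/
def chk (P : Poly) : Bool := (nfP P []).all fun q => Nat.beq q.1 0

section ev

variable {B : Type} [NonUnitalNonAssocCommRing B] (x : ℕ → B) (α : B → B → B)

/-- evaluation of terms -/
def ev : Tm → B
  | .v n => x n
  | .t a b c => asc (ev a) (ev b) (ev c)
  | .p a b => α (ev a) (ev b)
  | .m a b => ev a * ev b

/-- evaluation of polynomials -/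
def evP : Poly → B
  | [] => 0
  | (c, a) :: P => c • ev x α a + evP P

theorem evP_nil : evP x α [] = 0 := rfl

theorem evP_cons (c : ℕ) (a : Tm) (P : Poly) :
    evP x α ((c, a) :: P) = c • ev x α a + evP x α P := rfl

theorem evP_append (P Q : Poly) : evP x α (P ++ Q) = evP x α P + evP x α Q := by
  induction P with
  | nil => rw [List.nil_append, evP_nil, zero_add]
  | cons q P ih => rw [List.cons_append, evP_cons, evP_cons, ih, add_assoc]

variable {x α} (h : CA B) (hα : Bi α)

include h

theorem sw2_asc1 (s : ℕ) (a b c : Tm) : s • asc (ev x α a) (ev x α b) (ev x α c) =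
    (sw2 s a b).1 • asc (ev x α (sw2 s a b).2.1) (ev x α (sw2 s a b).2.2) (ev x α c) := by
  unfold sw2
  cases Nat.ble a.code b.code
  · simp only [cond_false]
    rw [h.s12, h.neg_eq, ← mul_smul, mul_comm s 2]
  · rfl

theorem sw2_asc2 (s : ℕ) (a b c : Tm) : s • asc (ev x α a) (ev x α b) (ev x α c) =
    (sw2 s b c).1 • asc (ev x α a) (ev x α (sw2 s b c).2.1) (ev x α (sw2 s b c).2.2) := by
  unfold sw2
  cases Nat.ble b.code c.code
  · simp only [cond_false]
    rw [h.s23, h.neg_eq, ← mul_smul, mul_comm s 2]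
  · rfl

theorem nt_sound (s : ℕ) (a b c : Tm) : s • asc (ev x α a) (ev x α b) (ev x α c) =
    (nt s a b c).1 • ev x α (nt s a b c).2 := by
  have e1 := sw2_asc1 (x := x) (α := α) h s a b c
  have e2 := sw2_asc2 (x := x) (α := α) h (sw2 s a b).1 (sw2 s a b).2.1 (sw2 s a b).2.2 c
  have e3 := sw2_asc1 (x := x) (α := α) h (sw2 (sw2 s a b).1 (sw2 s a b).2.2 c).1 (sw2 s a b).2.1
    (sw2 (sw2 s a b).1 (sw2 s a b).2.2 c).2.1 (sw2 (sw2 s a b).1 (sw2 s a b).2.2 c).2.2
  rw [e1, e2, e3]
  unfold nt
  simp only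
  generalize (sw2 (sw2 s a b).1 (sw2 s a b).2.2 c) = q2
  generalize (sw2 q2.1 (sw2 s a b).2.1 q2.2.1) = q3
  cases hb : (beq q3.2.1 q3.2.2 || beq q3.2.2 q2.2.2)
  · rfl
  · simp only [cond_true, ev]
    rw [Bool.or_eq_true] at hb
    rcases hb with hb | hb
    · rw [beq_eq _ _ hb, h.e12, smul_zero, smul_zero]
    · rw [← beq_eq _ _ hb, h.e23, smul_zero, smul_zero]

include hα

theorem np_sound (s : ℕ) (a b : Tm) : s • α (ev x α a) (ev x α b) =
    (np s a b).1 • ev x α (np s a b).2 := by
  have e1 : s • α (ev x α a) (ev x α b) =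
      (sw2 s a b).1 • α (ev x α (sw2 s a b).2.1) (ev x α (sw2 s a b).2.2) := by
    unfold sw2
    cases Nat.ble a.code b.code
    · simp only [cond_false]
      rw [hα.skew, h.neg_eq, ← mul_smul, mul_comm s 2]
    · rfl
  rw [e1]
  unfold np
  simp only
  generalize (sw2 s a b) = q
  cases hb : beq q.2.1 q.2.2
  · rfl
  · simp only [cond_true, ev]
    rw [beq_eq _ _ hb, hα.alt h, smul_zero, smul_zero]

omit h hα in
theorem nm_sound (s : ℕ) (a b : Tm) : s • (ev x α a * ev x α b) =
    (nm s a b).1 • ev x α (nm s a b).2 := by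
  unfold nm
  cases Nat.ble a.code b.code
  · simp only [cond_false, ev]
    rw [mul_comm]
  · rfl

omit hα in
theorem smul_asc3 (i j k : ℕ) (a b c : B) :
    asc (i • a) (j • b) (k • c) = (i * j * k) • asc a b c := by
  have e1 : ∀ (i : ℕ) (a b c : B), asc (i • a) b c = i • asc a b c := by
    intro i a b c
    induction i with
    | zero => rw [zero_smul, zero_smul, asc_zero1]
    | succ i ih => rw [add_smul, add_smul, one_smul, one_smul, asc_add1, ih]
  rw [e1, h.cyc a, e1, h.cyc b, e1, h.cyc c, smul_smul, smul_smul]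

omit h in
theorem smul_bi (i j : ℕ) (a b : B) : α (i • a) (j • b) = (i * j) • α a b := by
  have e1 : ∀ (i : ℕ) (a b : B), α (i • a) b = i • α a b := by
    intro i a b
    induction i with
    | zero => rw [zero_smul, zero_smul, hα.zl]
    | succ i ih => rw [add_smul, add_smul, one_smul, one_smul, hα.addl, ih]
  rw [e1, hα.skew a, e1, ← smul_neg, ← hα.skew, smul_smul]

theorem nf_sound (a : Tm) : ev x α a = (nf a).1 • ev x α (nf a).2 := by
  induction a with
  | v n => rw [nf, one_smul]
  | t a b c iha ihb ihc =>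
    rw [ev, iha, ihb, ihc, smul_asc3 h, nf]
    exact nt_sound h _ _ _ _
  | p a b iha ihb =>
    rw [ev, iha, ihb, smul_bi hα, nf]
    exact np_sound h hα _ _ _
  | m a b iha ihb =>
    rw [ev, iha, ihb, smul_mul_smul_comm, nf]
    exact nm_sound _ _ _

omit hα in
theorem insT_sound (c : ℕ) (a : Tm) (P : Poly) :
    evP x α (insT c a P) = c • ev x α a + evP x α P := by
  induction P with
  | nil => rw [insT, evP_cons, evP_nil, ← h.nat_smul]
  | cons q P ih =>
    obtain ⟨d, b⟩ := q
    rw [insT]
    cases hb : beq a b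
    · rw [cond_false, evP_cons, ih, evP_cons]
      abel
    · rw [cond_true, evP_cons, evP_cons, ← h.nat_smul, beq_eq _ _ hb, add_smul, add_assoc]

theorem nfP_sound (P : Poly) : ∀ acc : Poly,
    evP x α (nfP P acc) = evP x α P + evP x α acc := by
  induction P with
  | nil => intro acc; rw [nfP, evP_nil, zero_add]
  | cons q P ih =>
    intro acc
    obtain ⟨c, a⟩ := q
    rw [nfP, ih, insT_sound h, evP_cons, mul_smul, ← nf_sound h hα]
    abel

theorem chk_sound (P : Poly) (hP : chk P = true) : evP x α P = 0 := by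
  have h1 : ∀ Q : Poly, (Q.all fun q => Nat.beq q.1 0) = true → evP x α Q = 0 := by
    intro Q
    induction Q with
    | nil => intro _; rfl
    | cons q Q ih =>
      intro hQ
      rw [List.all_cons, Bool.and_eq_true] at hQ
      obtain ⟨c, a⟩ := q
      rw [evP_cons, ih hQ.2, show c = 0 from Nat.eq_of_beq_eq_true hQ.1, zero_smul, zero_add]
  have h2 := nfP_sound (x := x) h hα P []
  rw [evP_nil, add_zero] at h2
  rw [← h2]
  exact h1 _ hP

end ev

/-! ### polynomials built from polynomials -/

/-- `asc a b P` -/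
def tP (a b : Tm) : Poly → Poly
  | [] => []
  | (c, u) :: P => (c, .t a b u) :: tP a b P

/-- `u * P` -/
def mP (u : Tm) : Poly → Poly
  | [] => []
  | (c, w) :: P => (c, .m u w) :: mP u P

/-- `k P` -/
def scP (k : ℕ) : Poly → Poly
  | [] => []
  | (c, w) :: P => (k * c, w) :: scP k P

/-- derivation `asc a b` applied to a term, with the Leibniz rule on products -/
def dM (a b : Tm) : Tm → Poly
  | .m d e => [(1, .m (.t a b d) e), (1, .m d (.t a b e))]
  | .v n => [(1, .t a b (.v n))]
  | .t d e f => [(1, .t a b (.t d e f))]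
  | .p d e => [(1, .t a b (.p d e))]

/-- derivation `asc a b` applied to a polynomial -/
def dP (a b : Tm) : Poly → Poly
  | [] => []
  | (c, u) :: P => scP c (dM a b u) ++ dP a b P

section evp

variable {B : Type} [NonUnitalNonAssocCommRing B] {x : ℕ → B} {α : B → B → B}

theorem asc_nsmul (k : ℕ) (a b c : B) : asc a b (k • c) = k • asc a b c := by
  induction k with
  | zero => rw [zero_smul, zero_smul, asc_zero3]
  | succ k ih => rw [add_smul, add_smul, one_smul, one_smul, asc_add3, ih]

theorem tP_ev (a b : Tm) (P : Poly) :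
    evP x α (tP a b P) = asc (ev x α a) (ev x α b) (evP x α P) := by
  induction P with
  | nil => rw [tP, evP_nil, asc_zero3]
  | cons q P ih =>
    obtain ⟨c, u⟩ := q
    rw [tP, evP_cons, evP_cons, ih, asc_add3, asc_nsmul, ev]

theorem mP_ev (u : Tm) (P : Poly) : evP x α (mP u P) = ev x α u * evP x α P := by
  induction P with
  | nil => rw [mP, evP_nil, mul_zero]
  | cons q P ih =>
    obtain ⟨c, w⟩ := q
    rw [mP, evP_cons, evP_cons, ih, mul_add, mul_smul_comm, ev]

theorem scP_ev (k : ℕ) (P : Poly) : evP x α (scP k P) = k • evP x α P := by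
  induction P with
  | nil => rw [scP, evP_nil, smul_zero]
  | cons q P ih =>
    obtain ⟨c, w⟩ := q
    rw [scP, evP_cons, evP_cons, ih, smul_add, mul_smul]

theorem dM_ev (h : CA B) (a b u : Tm) :
    evP x α (dM a b u) = asc (ev x α a) (ev x α b) (ev x α u) := by
  cases u with
  | v n => simp only [dM, evP, ev, one_smul, add_zero]
  | t _ _ _ => simp only [dM, evP, ev, one_smul, add_zero]
  | p _ _ => simp only [dM, evP, ev, one_smul, add_zero]
  | m u w =>
    simp only [dM, evP, ev, one_smul, add_zero]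
    rw [h.m3, mul_comm (asc _ _ (ev x α u)), add_comm]

theorem dP_ev (h : CA B) (a b : Tm) (P : Poly) :
    evP x α (dP a b P) = asc (ev x α a) (ev x α b) (evP x α P) := by
  induction P with
  | nil => rw [dP, evP_nil, asc_zero3]
  | cons q P ih =>
    obtain ⟨c, u⟩ := q
    rw [dP, evP_append, scP_ev, dM_ev h, evP_cons, ih, asc_add3, asc_nsmul]

end evp

end Pool.Agent.C3
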