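import Pool.Agent.Helper57_C3.Refl

/-!
# Relations of alternating biderivations (helper57)
-/

set_option autoImplicit false

namespace Pool.Agent.C3

open Pool.Agent.TP

section basic

variable {B : Type} [NonUnitalNonAssocCommRing B] (h : CA B)
include h

theorem Bi.ofAsc (e : B) : Bi fun a b : B => asc a b e where
  addl a b c := asc_add1 a b c e
  leibl a b c := h.m1 a b c e
  skew a b := h.s12 a b e

variable {α : B → B → B} (hα : Bi α)
include hα

/-- relation (c1) -/
theorem Bi.c1 (a c a' c' : B) : asc a c (α a' c') + asc a' c (α a c') + asc a c' (α a' c) +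
    asc a' c' (α a c) = 0 := by
  have e1 : α (a * a') (c * c') = c * (a * α a' c' + a' * α a c') +
      c' * (a * α a' c + a' * α a c) := by
    rw [hα.leibr, hα.leibl, hα.leibl]
  have e2 : α (a * a') (c * c') = a * (c * α a' c' + c' * α a' c) +
      a' * (c * α a c' + c' * α a c) := by
    rw [hα.leibl, hα.leibr, hα.leibr]
  have e3 := sub_eq_zero.mpr (e2.symm.trans e1)
  rw [← h.comm_l, ← h.comm_l, ← h.comm_l, ← h.comm_l, ← e3]
  simp only [mul_add]
  abel

/-- relation (c2) -/
theorem Bi.c2 (b a c a' c' : B) : asc a c b * α a' c' + asc a' c b * α a c' +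
    asc a c' b * α a' c + asc a' c' b * α a c = 0 := by
  have e1 := Bi.c1 h hα (a * a') c b c'
  rw [hα.leibl, hα.leibl, h.m1, h.m1, asc_add3, asc_add3, h.m3, h.m3, h.m3, h.m3] at e1
  have e2 := congrArg (a * ·) (Bi.c1 h hα a' c b c')
  have e3 := congrArg (a' * ·) (Bi.c1 h hα a c b c')
  simp only [mul_add, mul_zero] at e2 e3
  have e4 : α a' c' * asc b c a + α a c' * asc b c a' + α a' c * asc b c' a +
      α a c * asc b c' a' = 0 := by
    linear_combination (norm := abel) e1 - e2 - e3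
  rw [h.s13 a c b, h.s13 a' c b, h.s13 a c' b, h.s13 a' c' b]
  simp only [neg_mul, mul_comm (asc _ _ _)]
  linear_combination (norm := abel) - e4

/-- relation (c2), quadratic form -/
theorem Bi.c2q (b a c : B) : asc a c b * α a c = 0 := by
  have e1 := Bi.c2 h hα b a c a c
  refine h.two (h.two ?_)
  rw [← e1]
  abel

/-- relation (c1), quadratic form -/
theorem Bi.c1q (a c : B) : asc a c (α a c) = 0 := by
  have e1 := Bi.c1 h hα a c a c
  refine h.two (h.two ?_)
  rw [← e1]
  abel

/-- the derived biderivation -/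
theorem Bi.prime (e f : B) : Bi fun a b : B => asc a e (α f b) + asc a f (α e b) where
  addl a b c := by rw [asc_add1, asc_add1]; abel
  leibl a b c := by rw [h.m1, h.m1, mul_add, mul_add]; abel
  skew a b := by
    have e1 := Bi.c1 h hα a e b f
    rw [hα.skew b f, hα.skew a f, hα.skew b e, hα.skew a e] at e1
    simp only [asc_neg3] at e1
    rw [eq_neg_iff_add_eq_zero]
    linear_combination (norm := abel) - e1

end basic

/-- alternating sum over the splits of `x1, ..., x5` into two and three letters -/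
def kap {B : Type} [NonUnitalNonAssocCommRing B] (u x1 x2 x3 x4 x5 : B) : B :=
  asc u x1 x2 * asc x3 x4 x5 - asc u x1 x3 * asc x2 x4 x5 + asc u x1 x4 * asc x2 x3 x5
  - asc u x1 x5 * asc x2 x3 x4 + asc u x2 x3 * asc x1 x4 x5 - asc u x2 x4 * asc x1 x3 x5
  + asc u x2 x5 * asc x1 x3 x4 + asc u x3 x4 * asc x1 x2 x5 - asc u x3 x5 * asc x1 x2 x4
  + asc u x4 x5 * asc x1 x2 x3

/-- the relation R', polarised -/
def rr {B : Type} [NonUnitalNonAssocCommRing B] (α : B → B → B) (z1 z2 z3 c c' a a' : B) : B :=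
  asc z1 z2 c * asc c' a (α a' z3) - asc z1 z2 a * asc a' c (α c' z3)
  + (asc z1 z2 c * asc c' a' (α a z3) - asc z1 z2 a' * asc a c (α c' z3))
  + (asc z1 z2 c' * asc c a (α a' z3) - asc z1 z2 a * asc a' c' (α c z3))
  + (asc z1 z2 c' * asc c a' (α a z3) - asc z1 z2 a' * asc a c' (α c z3))

/-- the biderivations used in the relations -/
inductive Al : Type
  | p : Al
  | t (e : Tm) : Al
  | b (e f : Tm) : Al

/-- value of a biderivation at terms -/
def app : Al → Tm → Tm → Poly
  | .p, d, e => [(1, .p d e)]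
  | .t f, d, e => [(1, .t d e f)]
  | .b f g, d, e => [(1, .t d f (.p g e)), (1, .t d g (.p f e))]

/-- relations -/
inductive Rel : Type
  | c1 (al : Al) (a c a' c' : Tm) : Rel
  | c2 (al : Al) (b a c a' c' : Tm) : Rel
  | fil (a b c d e : Tm) : Rel
  | psiT (a b c d : Tm) : Rel
  | rr (z1 z2 z3 c c' a a' : Tm) : Rel
  | kk (d e x1 x2 x3 x4 x5 : Tm) : Rel
  | mul (u : Tm) (r : Rel) : Rel
  | der (a b : Tm) (r : Rel) : Rel

/-- product of two associators -/
def tt (k : ℕ) (a b c d e f : Tm) : ℕ × Tm := (k, .m (.t a b c) (.t d e f))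

/-- the polynomial of a relation -/
def Rel.poly : Rel → Poly
  | .c1 al a c a' c' => tP a c (app al a' c') ++ (tP a' c (app al a c') ++
      (tP a c' (app al a' c) ++ tP a' c' (app al a c)))
  | .c2 al b a c a' c' => mP (.t a c b) (app al a' c') ++ (mP (.t a' c b) (app al a c') ++
      (mP (.t a c' b) (app al a' c) ++ mP (.t a' c' b) (app al a c)))
  | .fil a b c d e => [(1, .t a b (.t c d e)), (2, .t (.t a b c) d e), (2, .t c (.t a b d) e),
      (2, .t c d (.t a b e))]
  | .psiT a b c d => [(1, .p (.t a b c) d), (2, .t (.p a d) b c), (2, .t a (.p b d) c),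
      (2, .t a b (.p c d))]
  | .rr z1 z2 z3 c c' a a' => [tt 1 z1 z2 c c' a (.p a' z3), tt 2 z1 z2 a a' c (.p c' z3),
      tt 1 z1 z2 c c' a' (.p a z3), tt 2 z1 z2 a' a c (.p c' z3),
      tt 1 z1 z2 c' c a (.p a' z3), tt 2 z1 z2 a a' c' (.p c z3),
      tt 1 z1 z2 c' c a' (.p a z3), tt 2 z1 z2 a' a c' (.p c z3)]
  | .kk d e x1 x2 x3 x4 x5 => [tt 1 (.p d e) x1 x2 x3 x4 x5, tt 2 (.p d e) x1 x3 x2 x4 x5,
      tt 1 (.p d e) x1 x4 x2 x3 x5, tt 2 (.p d e) x1 x5 x2 x3 x4, tt 1 (.p d e) x2 x3 x1 x4 x5,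
      tt 2 (.p d e) x2 x4 x1 x3 x5, tt 1 (.p d e) x2 x5 x1 x3 x4, tt 1 (.p d e) x3 x4 x1 x2 x5,
      tt 2 (.p d e) x3 x5 x1 x2 x4, tt 1 (.p d e) x4 x5 x1 x2 x3]
  | .mul u r => mP u r.poly
  | .der a b r => dP a b r.poly

/-- does the relation use the hypotheses R' and kappa? -/
def Rel.hyp : Rel → Bool
  | .c1 _ _ _ _ _ => false
  | .c2 _ _ _ _ _ _ => false
  | .fil _ _ _ _ _ => false
  | .psiT _ _ _ _ => false
  | .rr _ _ _ _ _ _ _ => true
  | .kk _ _ _ _ _ _ _ => true
  | .mul _ r => r.hyp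
  | .der _ _ r => r.hyp

section sound

variable {B : Type} [NonUnitalNonAssocCommRing B] (h : CA B) {α : B → B → B} (hα : Bi α)
  {x : ℕ → B}

/-- the biderivation -/
def Al.fn (x : ℕ → B) (α : B → B → B) : Al → B → B → B
  | .p => α
  | .t e => fun a b => asc a b (ev x α e)
  | .b e f => fun a b => asc a (ev x α e) (α (ev x α f) b) + asc a (ev x α f) (α (ev x α e) b)

include h in
theorem app_ev (al : Al) (d e : Tm) : evP x α (app al d e) =
    al.fn x α (ev x α d) (ev x α e) := by
  cases al with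
  | p => simp only [app, evP, ev, Al.fn, one_smul, add_zero]
  | t f => simp only [app, evP, ev, Al.fn, one_smul, add_zero]
  | b f g => simp only [app, evP, ev, Al.fn, one_smul, add_zero]

include h hα

theorem Al.bi (al : Al) : Bi (al.fn x α) := by
  cases al with
  | p => exact hα
  | t e => exact Bi.ofAsc h _
  | b e f => exact Bi.prime h hα _ _

theorem Rel.sound (r : Rel) (hr : r.hyp = false ∨
    ((∀ z1 z2 z3 c c' a a' : B, C3.rr α z1 z2 z3 c c' a a' = 0) ∧
      ∀ d e x1 x2 x3 x4 x5 : B, kap (α d e) x1 x2 x3 x4 x5 = 0)) : evP x α r.poly = 0 := by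
  induction r with
  | c1 al a c a' c' =>
    rw [Rel.poly, evP_append, evP_append, evP_append, tP_ev, tP_ev, tP_ev, tP_ev, app_ev h,
      app_ev h, app_ev h, app_ev h, ← Bi.c1 h (Al.bi h hα (x := x) al) (ev x α a) (ev x α c)
        (ev x α a') (ev x α c')]
    abel
  | c2 al b a c a' c' =>
    rw [Rel.poly, evP_append, evP_append, evP_append, mP_ev, mP_ev, mP_ev, mP_ev, app_ev h,
      app_ev h, app_ev h, app_ev h, ← Bi.c2 h (Al.bi h hα (x := x) al) (ev x α b) (ev x α a)
        (ev x α c) (ev x α a') (ev x α c')]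
    simp only [ev]
    abel
  | fil a b c d e =>
    simp only [Rel.poly, evP, ev, one_smul, add_zero, ← h.neg_eq]
    rw [h.fil]
    abel
  | psiT a b c d =>
    simp only [Rel.poly, evP, ev, one_smul, add_zero, ← h.neg_eq]
    rw [hα.on_asc]
    abel
  | rr z1 z2 z3 c c' a a' =>
    rcases hr with hr | hr
    · simp [Rel.hyp] at hr
    · rw [← hr.1 (ev x α z1) (ev x α z2) (ev x α z3) (ev x α c) (ev x α c') (ev x α a)
        (ev x α a')]
      simp only [Rel.poly, tt, evP, ev, one_smul, add_zero, ← h.neg_eq, C3.rr]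
      abel
  | kk d e x1 x2 x3 x4 x5 =>
    rcases hr with hr | hr
    · simp [Rel.hyp] at hr
    · rw [← hr.2 (ev x α d) (ev x α e) (ev x α x1) (ev x α x2) (ev x α x3) (ev x α x4)
        (ev x α x5)]
      simp only [Rel.poly, tt, evP, ev, one_smul, add_zero, ← h.neg_eq, kap]
      abel
  | mul u r ih => rw [Rel.poly, mP_ev, ih hr, mul_zero]
  | der a b r ih => rw [Rel.poly, dP_ev h, ih hr, asc_zero3]

end sound

/-- a certificate: a list of coefficients and relations -/
def certP : List (ℕ × Rel) → Poly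
  | [] => []
  | (c, r) :: L => scP c r.poly ++ certP L

/-- no relation of the certificate uses the hypotheses -/
def noHyp : List (ℕ × Rel) → Bool
  | [] => true
  | (_, r) :: L => !r.hyp && noHyp L

section cert

variable {B : Type} [NonUnitalNonAssocCommRing B] (h : CA B) {α : B → B → B} (hα : Bi α)
  {x : ℕ → B}
include h hα

theorem certP_ev (L : List (ℕ × Rel)) (hr : noHyp L = true ∨
    ((∀ z1 z2 z3 c c' a a' : B, C3.rr α z1 z2 z3 c c' a a' = 0) ∧
      ∀ d e x1 x2 x3 x4 x5 : B, kap (α d e) x1 x2 x3 x4 x5 = 0)) : evP x α (certP L) = 0 := by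
  induction L with
  | nil => rfl
  | cons q L ih =>
    obtain ⟨c, r⟩ := q
    rw [certP, evP_append, scP_ev, Rel.sound h hα r, smul_zero, zero_add, ih]
    · rcases hr with hr | hr
      · simp only [noHyp, Bool.and_eq_true] at hr
        exact Or.inl hr.2
      · exact Or.inr hr
    · rcases hr with hr | hr
      · simp only [noHyp, Bool.and_eq_true, Bool.not_eq_true'] at hr
        exact Or.inl hr.1
      · exact Or.inr hr

/-- `T = sum c_i r_i` proves `T = 0` -/
theorem cert_sound (T : Poly) (L : List (ℕ × Rel)) (hchk : chk (scP 2 T ++ certP L) = true)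
    (hr : noHyp L = true ∨
    ((∀ z1 z2 z3 c c' a a' : B, C3.rr α z1 z2 z3 c c' a a' = 0) ∧
      ∀ d e x1 x2 x3 x4 x5 : B, kap (α d e) x1 x2 x3 x4 x5 = 0)) : evP x α T = 0 := by
  have h1 := chk_sound (x := x) h hα _ hchk
  rw [evP_append, certP_ev h hα L hr, add_zero, scP_ev, ← h.neg_eq] at h1
  exact neg_eq_zero.mp h1

end cert

end Pool.Agent.C3
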